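import Pool.Agent.H207R2.BL.Woodall

/-!
The class of graphs all of whose minors with more than `n` vertices have a vertex of degree at most
`d`.
-/

set_option autoImplicit false
set_option linter.unusedSectionVars false

namespace Pool.Agent.R814.BL

open Pool.Agent.H207R2.BL

/-- Every minor of `G` with more than `n` vertices has a vertex of degree at most `d`: whenever
`m > n` pairwise disjoint connected sets of vertices are given, one of them is joined by edges of
`G` to at most `d` of the others. -/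
def MinorDegAbove (n d : ℕ) {V : Type} (G : SimpleGraph V) : Prop :=
  ∀ (m : ℕ) (B : Fin m → Set V), n < m → (∀ i, ConnSet G (B i)) →
    (∀ i j, i ≠ j → Disjoint (B i) (B j)) →
    ∃ i, {j | j ≠ i ∧ ∃ x ∈ B i, ∃ y ∈ B j, G.Adj x y}.ncard ≤ d

theorem minorAbove_edge (n d : ℕ) {V : Type} (G H : SimpleGraph V) (h : H ≤ G)
    (hG : MinorDegAbove n d G) : MinorDegAbove n d H := by
  intro m B hm hB hd
  obtain ⟨i, hi⟩ := hG m B hm (fun i => ⟨(hB i).1, fun x hx y hy => by
    obtain ⟨w, hw⟩ := (hB i).2 x hx y hy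
    exact ⟨w.mapLe h, by rwa [SimpleGraph.Walk.support_mapLe_eq_support]⟩⟩) hd
  refine ⟨i, le_trans (Set.ncard_le_ncard ?_ (Set.toFinite _)) hi⟩
  rintro j ⟨hj, x, hx, y, hy, hxy⟩
  exact ⟨hj, x, hx, y, hy, h hxy⟩

theorem minorAbove_vertex (n d : ℕ) {V : Type} (G : SimpleGraph V) (v : V)
    (hG : MinorDegAbove n d G) :
    MinorDegAbove n d (G.comap (Subtype.val : {x : V // x ≠ v} → V)) := by
  intro m B hm hB hd
  have hc : ∀ i, ConnSet G (Subtype.val '' (B i)) := by
    intro i
    refine ⟨(hB i).1.image _, ?_⟩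
    rintro _ ⟨x, hx, rfl⟩ _ ⟨y, hy, rfl⟩
    obtain ⟨w, hw⟩ := (hB i).2 x hx y hy
    let φ : G.comap (Subtype.val : {x : V // x ≠ v} → V) →g G := ⟨Subtype.val, fun h => h⟩
    refine ⟨w.map φ, ?_⟩
    intro z hz
    rw [SimpleGraph.Walk.support_map, List.mem_map] at hz
    obtain ⟨z', hz', rfl⟩ := hz
    exact ⟨z', hw z' hz', rfl⟩
  have hd' : ∀ i j, i ≠ j → Disjoint (Subtype.val '' (B i)) (Subtype.val '' (B j)) := by
    intro i j hij
    exact (Set.disjoint_image_iff Subtype.val_injective).2 (hd i j hij)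
  obtain ⟨i, hi⟩ := hG m (fun i => Subtype.val '' (B i)) hm hc hd'
  refine ⟨i, le_trans (Set.ncard_le_ncard ?_ (Set.toFinite _)) hi⟩
  rintro j ⟨hj, x, hx, y, hy, hxy⟩
  exact ⟨hj, x.1, ⟨x, hx, rfl⟩, y.1, ⟨y, hy, rfl⟩, hxy⟩

theorem minorAbove_contr (n d : ℕ) {V : Type} (G : SimpleGraph V) (u v : V) (huv : G.Adj u v)
    (hG : MinorDegAbove n d G) : MinorDegAbove n d (contract G u v) := by
  intro m B hm hB hd
  let L : Fin m → Set V := fun i =>
    Subtype.val '' (B i) ∪ {x | x = v ∧ (⟨u, huv.ne⟩ : {x : V // x ≠ v}) ∈ B i}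
  have hv : ∀ i x, x ∈ B i → x.1 ∈ L i := fun i x hx => Or.inl ⟨x, hx, rfl⟩
  have hvu : ∀ i, u ∈ L i → v ∈ L i := by
    rintro i (⟨x, hx, hxu⟩ | ⟨h, _⟩)
    · refine Or.inr ⟨rfl, ?_⟩
      have : (⟨u, huv.ne⟩ : {x : V // x ≠ v}) = x := Subtype.ext hxu.symm
      rw [this]
      exact hx
    · exact absurd h huv.ne
  -- transport of walks
  have hwalk : ∀ i (x y : {x : V // x ≠ v}) (w : (contract G u v).Walk x y),
      (∀ z ∈ w.support, z ∈ B i) → ∃ w' : G.Walk x.1 y.1, ∀ z ∈ w'.support, z ∈ L i := by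
    intro i x y w
    induction w with
    | nil =>
      intro h
      refine ⟨SimpleGraph.Walk.nil, ?_⟩
      intro z hz
      simp only [SimpleGraph.Walk.support_nil, List.mem_singleton] at hz
      rw [hz]
      exact hv i _ (h _ (by simp))
    | @cons a b c hab w ih =>
      intro h
      have ha : a ∈ B i := h a (by simp)
      have hb : b ∈ B i := h b (by simp)
      obtain ⟨w', hw'⟩ := ih (fun z hz => h z (by simp [hz]))
      rcases hab with ⟨_, h1 | ⟨h1, h2⟩ | ⟨h1, h2⟩⟩
      · refine ⟨SimpleGraph.Walk.cons h1 w', ?_⟩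
        intro z hz
        rw [SimpleGraph.Walk.support_cons, List.mem_cons] at hz
        rcases hz with rfl | hz
        · exact hv i a ha
        · exact hw' z hz
      · have hu : u ∈ L i := h1 ▸ hv i a ha
        have h3 : G.Adj a.1 v := h1 ▸ huv
        refine ⟨SimpleGraph.Walk.cons h3 (SimpleGraph.Walk.cons h2 w'), ?_⟩
        intro z hz
        rw [SimpleGraph.Walk.support_cons, List.mem_cons, SimpleGraph.Walk.support_cons,
          List.mem_cons] at hz
        rcases hz with rfl | rfl | hz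
        · exact hv i a ha
        · exact hvu i hu
        · exact hw' z hz
      · have hu : u ∈ L i := h1 ▸ hv i b hb
        have h3 : G.Adj v b.1 := by
          rw [h1]
          exact huv.symm
        refine ⟨SimpleGraph.Walk.cons h2.symm (SimpleGraph.Walk.cons h3 w'), ?_⟩
        intro z hz
        rw [SimpleGraph.Walk.support_cons, List.mem_cons, SimpleGraph.Walk.support_cons,
          List.mem_cons] at hz
        rcases hz with rfl | rfl | hz
        · exact hv i a ha
        · exact hvu i hu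
        · exact hw' z hz
  have hc : ∀ i, ConnSet G (L i) := by
    intro i
    obtain ⟨x0, hx0⟩ := (hB i).1
    refine ⟨⟨x0.1, hv i x0 hx0⟩, ?_⟩
    have base : ∀ x ∈ L i, ∃ w : G.Walk x x0.1, ∀ z ∈ w.support, z ∈ L i := by
      rintro x (⟨x, hx, rfl⟩ | ⟨rfl, hx⟩)
      · obtain ⟨w, hw⟩ := (hB i).2 x hx x0 hx0
        exact hwalk i x x0 w hw
      · obtain ⟨w, hw⟩ := (hB i).2 _ hx x0 hx0
        obtain ⟨w', hw'⟩ := hwalk i _ x0 w hw
        refine ⟨SimpleGraph.Walk.cons huv.symm w', ?_⟩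
        intro z hz
        rw [SimpleGraph.Walk.support_cons, List.mem_cons] at hz
        rcases hz with rfl | hz
        · exact Or.inr ⟨rfl, hx⟩
        · exact hw' z hz
    intro x hx y hy
    obtain ⟨w1, hw1⟩ := base x hx
    obtain ⟨w2, hw2⟩ := base y hy
    refine ⟨w1.append w2.reverse, ?_⟩
    intro z hz
    rw [SimpleGraph.Walk.mem_support_append_iff, SimpleGraph.Walk.support_reverse,
      List.mem_reverse] at hz
    rcases hz with hz | hz
    · exact hw1 z hz
    · exact hw2 z hz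
  have hd' : ∀ i j, i ≠ j → Disjoint (L i) (L j) := by
    intro i j hij
    rw [Set.disjoint_left]
    rintro x (⟨x, hx, rfl⟩ | ⟨rfl, hx⟩) (⟨y, hy, hxy⟩ | ⟨h1, hy⟩)
    · have : y = x := Subtype.ext hxy
      subst this
      exact Set.disjoint_left.1 (hd i j hij) hx hy
    · exact x.2 h1
    · exact y.2 hxy
    · exact Set.disjoint_left.1 (hd i j hij) hx hy
  obtain ⟨i, hi⟩ := hG m L hm hc hd'
  refine ⟨i, le_trans (Set.ncard_le_ncard ?_ (Set.toFinite _)) hi⟩
  rintro j ⟨hj, x, hx, y, hy, _, h1 | ⟨h1, h2⟩ | ⟨h1, h2⟩⟩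
  · exact ⟨hj, x.1, hv i x hx, y.1, hv j y hy, h1⟩
  · exact ⟨hj, v, hvu i (h1 ▸ hv i x hx), y.1, hv j y hy, h2⟩
  · exact ⟨hj, x.1, hv i x hx, v, hvu j (h1 ▸ hv j y hy), h2.symm⟩

theorem minorAbove_exists (n d : ℕ) {V : Type} [Finite V] (hn : n < Nat.card V)
    (G : SimpleGraph V) (hG : MinorDegAbove n d G) : ∃ v, (G.neighborSet v).ncard ≤ d := by
  classical
  have : Fintype V := Fintype.ofFinite V
  rw [Nat.card_eq_fintype_card] at hn
  let e : Fin (Fintype.card V) ≃ V := (Fintype.equivFin V).symm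
  obtain ⟨i, hi⟩ := hG (Fintype.card V) (fun i => {e i}) hn
    (fun i => ⟨⟨e i, rfl⟩, by
      intro x hx y hy
      rw [Set.mem_singleton_iff] at hx hy
      subst hx
      subst hy
      exact ⟨SimpleGraph.Walk.nil, by simp⟩⟩)
    (fun i j hij => by
      rw [Set.disjoint_singleton]
      exact fun h => hij (e.injective h))
  refine ⟨e i, ?_⟩
  have h1 : G.neighborSet (e i) =
      e '' {j | j ≠ i ∧ ∃ x ∈ ({e i} : Set V), ∃ y ∈ ({e j} : Set V), G.Adj x y} := by
    ext y
    constructor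
    · intro hy
      have hy' : G.Adj (e i) y := hy
      refine ⟨e.symm y, ⟨?_, e i, rfl, y, by simp, hy'⟩, by simp⟩
      intro h
      rw [← h] at hy'
      simp at hy'
    · rintro ⟨j, ⟨_, x, hx, z, hz, hxz⟩, rfl⟩
      rw [Set.mem_singleton_iff] at hx hz
      subst hx
      subst hz
      exact hxz
  rw [h1, Set.ncard_image_of_injective _ e.injective]
  exact hi

end Pool.Agent.R814.BL
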