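import Pool.Agent.R814.BL.Pat

/-!
Counting colourings.
-/

set_option autoImplicit false

namespace Pool.Agent.R814.BL

open Pool.Agent.H207R2.BL Pool.Agent.Y865.RF Finset

section

variable {W : Type} {n : ℕ} (a : Fin n → W)

/-- the colours missing at the neighbours -/
def miss (g : W → Fin 5) : Finset (Fin 5) := univ.filter (fun c => ∀ k, g (a k) ≠ c)

theorem mem_miss {g : W → Fin 5} {c : Fin 5} : c ∈ miss a g ↔ ∀ k, g (a k) ≠ c := by
  simp [miss]

theorem miss_card (g : W → Fin 5) :
    (miss a g).card = 5 - (univ.image (fun k => g (a k))).card := by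
  have h : miss a g = (univ.image (fun k => g (a k)))ᶜ := by
    ext c
    rw [mem_miss, mem_compl, mem_image]
    constructor
    · rintro h ⟨k, _, hk⟩
      exact h k hk
    · intro h k hk
      exact h ⟨k, mem_univ k, hk⟩
  rw [h, card_compl, Fintype.card_fin]

theorem miss_card' (g y : W → Fin 5) (hinj : Function.Injective (fun k => g (a k)))
    (r : Fin n → Fin n) (hy : ∀ p, y (a p) = g (a (r p))) :
    (miss a y).card = 5 - (univ.image r).card := by
  rw [miss_card]
  have h : univ.image (fun k => y (a k)) = (univ.image r).image (fun k => g (a k)) := by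
    rw [image_image]
    apply image_congr
    intro k _
    exact hy k
  rw [h, card_image_of_injective _ hinj]

theorem inj_of_card (g : W → Fin 5) (h : (univ.image (fun k => g (a k))).card = n) :
    Function.Injective (fun k => g (a k)) := by
  have h1 : (univ.image (fun k => g (a k))).card = (univ : Finset (Fin n)).card := by
    rw [h, card_univ, Fintype.card_fin]
  have h2 := card_image_iff.1 h1
  intro p q hpq
  exact h2 (mem_coe.2 (mem_univ p)) (mem_coe.2 (mem_univ q)) hpq

end

/-- one coincidence -/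
def r1 {n : ℕ} (i j p : Fin n) : Fin n := if p = i then j else p

/-- two coincidences -/
def r2 {n : ℕ} (i j k l p : Fin n) : Fin n := if p = i then j else if p = k then l else p

theorem r1_rec {n : ℕ} {i j i' j' : Fin n} (h : i < j) (h' : i' < j')
    (e : r1 i j i' = r1 i j j') : i' = i ∧ j' = j := by
  unfold r1 at e
  split_ifs at e with h1 h2 h2
  · exact absurd (h1.trans h2.symm) (ne_of_lt h')
  · exact ⟨h1, e.symm⟩
  · rw [e, h2] at h'
    exact absurd h' (lt_asymm h)
  · exact absurd e (ne_of_lt h')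

theorem r2_rec {i j k l i' j' k' l' : Fin 5} (h1 : i < j) (h2 : k < l) (h3 : i < k) (h4 : j ≠ k)
    (h5 : j ≠ l) (h1' : i' < j') (h2' : k' < l') (h3' : i' < k')
    (e1 : r2 i j k l i' = r2 i j k l j') (e2 : r2 i j k l k' = r2 i j k l l') :
    i' = i ∧ j' = j ∧ k' = k ∧ l' = l := by
  unfold r2 at e1 e2
  split_ifs at e1 e2 <;> omega

theorem r1_ne {n : ℕ} {i j : Fin n} (h : i < j) (p : Fin n) : r1 i j p ≠ i := by
  unfold r1
  split_ifs with h1
  · exact (ne_of_lt h).symm
  · exact h1

theorem r2_ne {i j k l : Fin 5} (h1 : i < j) (h2 : k < l) (h3 : i < k) (p : Fin 5) :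
    r2 i j k l p ≠ i := by
  unfold r2
  split_ifs with h4 h5
  · exact (ne_of_lt h1).symm
  · exact (ne_of_lt (h3.trans h2)).symm
  · exact h4

theorem r1_card5 : ∀ i j : Fin 5, i < j → (univ.image (r1 i j)).card = 4 := by decide

theorem r1_card4 : ∀ i j : Fin 4, i < j → (univ.image (r1 i j)).card = 3 := by decide

theorem r2_card : ∀ i j : Fin 5, i < j → ∀ k : Fin 5, i < k → j ≠ k → ∀ l : Fin 5, k < l → j ≠ l →
    (univ.image (r2 i j k l)).card = 3 := by decide

section

variable {V : Type} (G : SimpleGraph V) (v : V) {n : ℕ} (a : Fin n → {x : V // x ≠ v})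

/-- the graph without `v` -/
abbrev HG : SimpleGraph {x : V // x ≠ v} := G.comap Subtype.val

/-- one Kempe change -/
noncomputable def S1 (g : {x : V // x ≠ v} → Fin 5) (i j : Fin n) : {x : V // x ≠ v} → Fin 5 :=
  ksw (HG G v) g (g (a i)) (g (a j)) (a i)

theorem S1_val (g : {x : V // x ≠ v} → Fin 5) (hinj : Function.Injective (fun k => g (a k)))
    (i j : Fin n) (hc : ¬ Con G v a g i j) (p : Fin n) :
    S1 G v a g i j (a p) = g (a (r1 i j p)) := by
  unfold S1 r1
  split_ifs with h1
  · rw [h1]
    exact ksw_self rfl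
  · by_cases h2 : p = j
    · rw [h2]
      exact ksw_neg hc
    · exact ksw_off (fun h => h1 (hinj h)) (fun h => h2 (hinj h))

/-- two Kempe changes -/
noncomputable def S2 (g : {x : V // x ≠ v} → Fin 5) (i j k l : Fin n) :
    {x : V // x ≠ v} → Fin 5 :=
  ksw (HG G v) (S1 G v a g i j) (g (a k)) (g (a l)) (a k)

theorem S2_val (g : {x : V // x ≠ v} → Fin 5) (hinj : Function.Injective (fun k => g (a k)))
    (i j k l : Fin n) (h1 : i ≠ k) (h2 : i ≠ l) (h3 : j ≠ k) (h4 : j ≠ l)
    (hc : ¬ Con G v a g i j) (hd : ¬ Con G v a g k l) (p : Fin n) :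
    S2 G v a g i j k l (a p) = g (a (r2 i j k l p)) := by
  have hT : Tw (S1 G v a g i j) (g (a k)) (g (a l)) = Tw g (g (a k)) (g (a l)) :=
    Tw_ksw_other g _ _ _ _ _ (fun h => h1 (hinj h).symm) (fun h => h3 (hinj h).symm)
      (fun h => h2 (hinj h).symm) (fun h => h4 (hinj h).symm)
  have hv := S1_val G v a g hinj i j hc
  have hk : S1 G v a g i j (a k) = g (a k) := by
    rw [hv]
    unfold r1
    rw [if_neg h1.symm]
  have hl : S1 G v a g i j (a l) = g (a l) := by
    rw [hv]
    unfold r1
    rw [if_neg h2.symm]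
  unfold S2 r2
  split_ifs with e1 e2
  · rw [e1]
    have hi : S1 G v a g i j (a i) = g (a j) := by
      rw [hv]
      unfold r1
      rw [if_pos rfl]
    rw [ksw_off (by rw [hi]; exact fun h => h3 (hinj h)) (by rw [hi]; exact fun h => h4 (hinj h)),
      hi]
  · rw [e2]
    exact ksw_self hk
  · have hp : S1 G v a g i j (a p) = g (a p) := by
      rw [hv]
      unfold r1
      rw [if_neg e1]
    by_cases e3 : p = l
    · rw [e3, ksw_neg (by rw [hT]; exact hd), hl]
    · rw [ksw_off (by rw [hp]; exact fun h => e2 (hinj h))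
        (by rw [hp]; exact fun h => e3 (hinj h)), hp]

theorem S1_inv (g : {x : V // x ≠ v} → Fin 5) (i j : Fin n) :
    ksw (HG G v) (S1 G v a g i j) (g (a i)) (g (a j)) (a i) = g := ksw_invol _ _ _ _

theorem S2_inv (g : {x : V // x ≠ v} → Fin 5) (i j k l : Fin n) :
    ksw (HG G v) (S2 G v a g i j k l) (g (a k)) (g (a l)) (a k) = S1 G v a g i j :=
  ksw_invol _ _ _ _

end

section

variable {V : Type} [Fintype V] [DecidableEq V] (G : SimpleGraph V) (v : V) {n : ℕ}
  (a : Fin n → {x : V // x ≠ v})

open Classical in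
/-- the proper colourings of `G - v` -/
noncomputable def PP : Finset ({x : V // x ≠ v} → Fin 5) := univ.filter (fun g => Proper (HG G v) g)

theorem mem_PP {g : {x : V // x ≠ v} → Fin 5} : g ∈ PP G v ↔ Proper (HG G v) g := by
  classical
  simp [PP]

/-- the proper colourings with `s` colours missing -/
noncomputable def XX (s : ℕ) : Finset ({x : V // x ≠ v} → Fin 5) :=
  (PP G v).filter (fun g => (miss a g).card = s)

theorem mem_XX {s : ℕ} {g : {x : V // x ≠ v} → Fin 5} :
    g ∈ XX G v a s ↔ Proper (HG G v) g ∧ (miss a g).card = s := by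
  rw [XX, mem_filter, mem_PP]

/-- extensions of colourings of `G - v` -/
theorem sum_miss_le (ha : ∀ u, G.Adj v u → ∃ k, (a k).1 = u) :
    ∑ g ∈ PP G v, (miss a g).card ≤ Nat.card {y : V → Fin 5 // Proper G y} := by
  classical
  rw [← card_sigma]
  rw [Nat.card_eq_fintype_card, Fintype.card_subtype]
  refine card_le_card_of_injOn
    (fun s => fun u => if hu : u = v then s.2 else s.1 ⟨u, hu⟩) ?_ ?_
  · rintro ⟨g, c⟩ hgc
    rw [mem_coe, mem_sigma, mem_PP, mem_miss] at hgc
    obtain ⟨hg, hc⟩ := hgc
    rw [mem_coe, mem_filter]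
    refine ⟨mem_univ _, ?_⟩
    intro p q hpq
    by_cases h1 : p = v
    · have h2 : q ≠ v := fun h => hpq.ne (h1.trans h.symm)
      obtain ⟨k, hk⟩ := ha q (h1 ▸ hpq)
      simp only [dif_pos h1, dif_neg h2]
      have h3 : a k = ⟨q, h2⟩ := Subtype.ext hk
      have h4 := hc k
      rw [h3] at h4
      exact fun h => h4 h.symm
    · by_cases h2 : q = v
      · obtain ⟨k, hk⟩ := ha p (h2 ▸ hpq.symm)
        simp only [dif_neg h1, dif_pos h2]
        have h3 : a k = ⟨p, h1⟩ := Subtype.ext hk
        have h4 := hc k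
        rw [h3] at h4
        exact h4
      · simp only [dif_neg h1, dif_neg h2]
        exact hg _ _ hpq
  · rintro ⟨g, c⟩ _ ⟨g', c'⟩ _ h
    have h1 : c = c' := by
      have := congrFun h v
      simpa using this
    have h2 : g = g' := by
      funext x
      have := congrFun h x.1
      simpa [x.2] using this
    rw [h1, h2]

end

end Pool.Agent.R814.BL
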