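import Pool.Agent.Y865.RF.Fin

/-!
Graphs whose minors of minimum degree five belong to a given set of graphs.
-/

set_option autoImplicit false
set_option linter.unusedSectionVars false

namespace Pool.Agent.R814.BL

open Polynomial Pool.Agent.H207R2.BL Pool.Agent.Y865.RF

/-- the graph obtained by contracting the sets `B i` (and deleting all other vertices) -/
def Quot {V : Type} (G : SimpleGraph V) {k : ℕ} (B : Fin k → Set V) : SimpleGraph (Fin k) where
  Adj i j := i ≠ j ∧ ∃ x ∈ B i, ∃ y ∈ B j, G.Adj x y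
  symm := ⟨fun _ _ h => ⟨h.1.symm, by
    obtain ⟨x, hx, y, hy, hxy⟩ := h.2
    exact ⟨y, hy, x, hx, hxy.symm⟩⟩⟩
  loopless := ⟨fun _ h => h.1 rfl⟩

/-- every minor has a vertex of degree at most four or belongs to `S` -/
def Dich (S : ∀ k : ℕ, SimpleGraph (Fin k) → Prop) {V : Type} (G : SimpleGraph V) : Prop :=
  ∀ (k : ℕ) (B : Fin k → Set V), 0 < k → (∀ i, ConnSet G (B i)) →
    (∀ i j, i ≠ j → Disjoint (B i) (B j)) →
    (∃ i, ((Quot G B).neighborSet i).ncard ≤ 4) ∨ S k (Quot G B)

theorem dich_edge (S : ∀ k : ℕ, SimpleGraph (Fin k) → Prop)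
    (hS : ∀ (k : ℕ) (M : SimpleGraph (Fin k)), S k M → ∀ i j, M.Adj i j →
      (M.neighborSet i).ncard ≤ 5 ∨ (M.neighborSet j).ncard ≤ 5)
    {V : Type} (G H : SimpleGraph V) (h : H ≤ G) (hG : Dich S G) : Dich S H := by
  intro k B hk hB hd
  have hle : Quot H B ≤ Quot G B := by
    rintro i j ⟨h1, x, hx, y, hy, hxy⟩
    exact ⟨h1, x, hx, y, hy, h hxy⟩
  have hsub : ∀ i, (Quot H B).neighborSet i ⊆ (Quot G B).neighborSet i := fun i j hj => hle hj
  rcases hG k B hk (fun i => ⟨(hB i).1, fun x hx y hy => by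
    obtain ⟨w, hw⟩ := (hB i).2 x hx y hy
    exact ⟨w.mapLe h, by rwa [SimpleGraph.Walk.support_mapLe_eq_support]⟩⟩) hd with ⟨i, hi⟩ | hM
  · exact Or.inl ⟨i, le_trans (Set.ncard_le_ncard (hsub i) (Set.toFinite _)) hi⟩
  · by_cases heq : Quot G B ≤ Quot H B
    · right
      rw [le_antisymm hle heq]
      exact hM
    · left
      have : ∃ i j, (Quot G B).Adj i j ∧ ¬ (Quot H B).Adj i j := by
        by_contra hcon
        push Not at hcon
        exact heq (fun i j hij => hcon i j hij)
      obtain ⟨i, j, hij, hnij⟩ := this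
      have key : ∀ i j, (Quot G B).Adj i j → ¬ (Quot H B).Adj i j →
          ((Quot G B).neighborSet i).ncard ≤ 5 → ∃ i, ((Quot H B).neighborSet i).ncard ≤ 4 := by
        intro i j hij hnij h5
        refine ⟨i, ?_⟩
        have hlt : ((Quot H B).neighborSet i).ncard < ((Quot G B).neighborSet i).ncard := by
          apply Set.ncard_lt_ncard _ (Set.toFinite _)
          refine ⟨hsub i, fun hcon => ?_⟩
          exact hnij (hcon (show j ∈ (Quot G B).neighborSet i from hij))
        omega
      rcases hS k _ hM i j hij with h5 | h5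
      · exact key i j hij hnij h5
      · exact key j i hij.symm (fun h' => hnij h'.symm) h5

theorem dich_vertex (S : ∀ k : ℕ, SimpleGraph (Fin k) → Prop) {V : Type} (G : SimpleGraph V)
    (v : V) (hG : Dich S G) : Dich S (G.comap (Subtype.val : {x : V // x ≠ v} → V)) := by
  intro k B hk hB hd
  have hc : ∀ i, ConnSet G (Subtype.val '' (B i)) := by
    intro i
    refine ⟨(hB i).1.image _, ?_⟩
    rintro _ ⟨x, hx, rfl⟩ _ ⟨y, hy, rfl⟩
    obtain ⟨w, hw⟩ := (hB i).2 x hx y hy
    let φ : G.comap (Subtype.val : {x : V // x ≠ v} → V) →g G := ⟨Subtype.val, fun h => h⟩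
    refine ⟨w.map φ, ?_⟩
    intro z hz
    rw [SimpleGraph.Walk.support_map, List.mem_map] at hz
    obtain ⟨z', hz', rfl⟩ := hz
    exact ⟨z', hw z' hz', rfl⟩
  have hd' : ∀ i j, i ≠ j → Disjoint (Subtype.val '' (B i)) (Subtype.val '' (B j)) := by
    intro i j hij
    exact (Set.disjoint_image_iff Subtype.val_injective).2 (hd i j hij)
  have hQ : Quot (G.comap (Subtype.val : {x : V // x ≠ v} → V)) B =
      Quot G (fun i => Subtype.val '' (B i)) := by
    ext i j
    constructor
    · rintro ⟨h1, x, hx, y, hy, hxy⟩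
      exact ⟨h1, x.1, ⟨x, hx, rfl⟩, y.1, ⟨y, hy, rfl⟩, hxy⟩
    · rintro ⟨h1, _, ⟨x, hx, rfl⟩, _, ⟨y, hy, rfl⟩, hxy⟩
      exact ⟨h1, x, hx, y, hy, hxy⟩
  rw [hQ]
  exact hG k (fun i => Subtype.val '' (B i)) hk hc hd'

theorem dich_contr (S : ∀ k : ℕ, SimpleGraph (Fin k) → Prop) {V : Type} (G : SimpleGraph V)
    (u v : V) (huv : G.Adj u v) (hG : Dich S G) : Dich S (contract G u v) := by
  intro k B hk hB hd
  let L : Fin k → Set V := fun i =>
    Subtype.val '' (B i) ∪ {x | x = v ∧ (⟨u, huv.ne⟩ : {x : V // x ≠ v}) ∈ B i}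
  have hv : ∀ i x, x ∈ B i → x.1 ∈ L i := fun i x hx => Or.inl ⟨x, hx, rfl⟩
  have hvu : ∀ i, u ∈ L i → v ∈ L i := by
    rintro i (⟨x, hx, hxu⟩ | ⟨h, _⟩)
    · refine Or.inr ⟨rfl, ?_⟩
      have : (⟨u, huv.ne⟩ : {x : V // x ≠ v}) = x := Subtype.ext hxu.symm
      rw [this]
      exact hx
    · exact absurd h huv.ne
  -- transport of walks
  have hwalk : ∀ i (x y : {x : V // x ≠ v}) (w : (contract G u v).Walk x y),
      (∀ z ∈ w.support, z ∈ B i) → ∃ w' : G.Walk x.1 y.1, ∀ z ∈ w'.support, z ∈ L i := by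
    intro i x y w
    induction w with
    | nil =>
      intro h
      refine ⟨SimpleGraph.Walk.nil, ?_⟩
      intro z hz
      simp only [SimpleGraph.Walk.support_nil, List.mem_singleton] at hz
      rw [hz]
      exact hv i _ (h _ (by simp))
    | @cons a b c hab w ih =>
      intro h
      have ha : a ∈ B i := h a (by simp)
      have hb : b ∈ B i := h b (by simp)
      obtain ⟨w', hw'⟩ := ih (fun z hz => h z (by simp [hz]))
      rcases hab with ⟨_, h1 | ⟨h1, h2⟩ | ⟨h1, h2⟩⟩
      · refine ⟨SimpleGraph.Walk.cons h1 w', ?_⟩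
        intro z hz
        rw [SimpleGraph.Walk.support_cons, List.mem_cons] at hz
        rcases hz with rfl | hz
        · exact hv i a ha
        · exact hw' z hz
      · have hu : u ∈ L i := h1 ▸ hv i a ha
        have h3 : G.Adj a.1 v := h1 ▸ huv
        refine ⟨SimpleGraph.Walk.cons h3 (SimpleGraph.Walk.cons h2 w'), ?_⟩
        intro z hz
        rw [SimpleGraph.Walk.support_cons, List.mem_cons, SimpleGraph.Walk.support_cons,
          List.mem_cons] at hz
        rcases hz with rfl | rfl | hz
        · exact hv i a ha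
        · exact hvu i hu
        · exact hw' z hz
      · have hu : u ∈ L i := h1 ▸ hv i b hb
        have h3 : G.Adj v b.1 := by
          rw [h1]
          exact huv.symm
        refine ⟨SimpleGraph.Walk.cons h2.symm (SimpleGraph.Walk.cons h3 w'), ?_⟩
        intro z hz
        rw [SimpleGraph.Walk.support_cons, List.mem_cons, SimpleGraph.Walk.support_cons,
          List.mem_cons] at hz
        rcases hz with rfl | rfl | hz
        · exact hv i a ha
        · exact hvu i hu
        · exact hw' z hz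
  have hc : ∀ i, ConnSet G (L i) := by
    intro i
    obtain ⟨x0, hx0⟩ := (hB i).1
    refine ⟨⟨x0.1, hv i x0 hx0⟩, ?_⟩
    have base : ∀ x ∈ L i, ∃ w : G.Walk x x0.1, ∀ z ∈ w.support, z ∈ L i := by
      rintro x (⟨x, hx, rfl⟩ | ⟨rfl, hx⟩)
      · obtain ⟨w, hw⟩ := (hB i).2 x hx x0 hx0
        exact hwalk i x x0 w hw
      · obtain ⟨w, hw⟩ := (hB i).2 _ hx x0 hx0
        obtain ⟨w', hw'⟩ := hwalk i _ x0 w hw
        refine ⟨SimpleGraph.Walk.cons huv.symm w', ?_⟩
        intro z hz
        rw [SimpleGraph.Walk.support_cons, List.mem_cons] at hz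
        rcases hz with rfl | hz
        · exact Or.inr ⟨rfl, hx⟩
        · exact hw' z hz
    intro x hx y hy
    obtain ⟨w1, hw1⟩ := base x hx
    obtain ⟨w2, hw2⟩ := base y hy
    refine ⟨w1.append w2.reverse, ?_⟩
    intro z hz
    rw [SimpleGraph.Walk.mem_support_append_iff, SimpleGraph.Walk.support_reverse,
      List.mem_reverse] at hz
    rcases hz with hz | hz
    · exact hw1 z hz
    · exact hw2 z hz
  have hd' : ∀ i j, i ≠ j → Disjoint (L i) (L j) := by
    intro i j hij
    rw [Set.disjoint_left]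
    rintro x (⟨x, hx, rfl⟩ | ⟨rfl, hx⟩) (⟨y, hy, hxy⟩ | ⟨h1, hy⟩)
    · have : y = x := Subtype.ext hxy
      subst this
      exact Set.disjoint_left.1 (hd i j hij) hx hy
    · exact x.2 h1
    · exact y.2 hxy
    · exact Set.disjoint_left.1 (hd i j hij) hx hy
  have hQ : Quot (contract G u v) B = Quot G L := by
    ext i j
    constructor
    · rintro ⟨h0, x, hx, y, hy, _, h1 | ⟨h1, h2⟩ | ⟨h1, h2⟩⟩
      · exact ⟨h0, x.1, hv i x hx, y.1, hv j y hy, h1⟩
      · exact ⟨h0, v, hvu i (h1 ▸ hv i x hx), y.1, hv j y hy, h2⟩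
      · exact ⟨h0, x.1, hv i x hx, v, hvu j (h1 ▸ hv j y hy), h2.symm⟩
    · rintro ⟨h0, x, hx, y, hy, hxy⟩
      refine ⟨h0, ?_⟩
      rcases hx with ⟨x', hx', rfl⟩ | ⟨rfl, hx'⟩
      · rcases hy with ⟨y', hy', rfl⟩ | ⟨rfl, hy'⟩
        · refine ⟨x', hx', y', hy', fun h => ?_, Or.inl hxy⟩
          rw [h] at hxy
          exact G.loopless.irrefl _ hxy
        · refine ⟨x', hx', _, hy', fun h => ?_, Or.inr (Or.inr ⟨rfl, hxy.symm⟩)⟩
          rw [h] at hx'
          exact Set.disjoint_left.1 (hd i j h0) hx' hy'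
      · rcases hy with ⟨y', hy', rfl⟩ | ⟨rfl, hy'⟩
        · refine ⟨_, hx', y', hy', fun h => ?_, Or.inr (Or.inl ⟨rfl, hxy⟩)⟩
          rw [← h] at hy'
          exact Set.disjoint_left.1 (hd i j h0) hx' hy'
        · exact absurd hxy (G.loopless.irrefl _)
  rw [hQ]
  exact hG k L hk hc hd'

theorem dich_mc (S : ∀ k : ℕ, SimpleGraph (Fin k) → Prop)
    (hS : ∀ (k : ℕ) (M : SimpleGraph (Fin k)), S k M → ∀ i j, M.Adj i j →
      (M.neighborSet i).ncard ≤ 5 ∨ (M.neighborSet j).ncard ≤ 5) :
    MinorClosed (fun _ G => Dich S G) where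
  edge _ G H h hG := dich_edge S hS G H h hG
  vertex _ G v hG := dich_vertex S G v hG
  contr _ G u v h hG := dich_contr S G u v h hG

/-- isomorphic graphs have the same chromatic polynomial -/
theorem chr_of_iso {V W : Type} [Finite V] [Finite W] (G : SimpleGraph V) (H : SimpleGraph W)
    (e : G ≃g H) : chr G = chr H := by
  apply chr_iso
  intro p hp k
  rw [hp k]
  congr 1
  refine Nat.card_congr ⟨fun c => c.comp e.symm.toHom, fun c => c.comp e.toHom, fun c => ?_,
    fun c => ?_⟩
  · ext x
    simp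
  · ext x
    simp

theorem dich_pos (S : ∀ k : ℕ, SimpleGraph (Fin k) → Prop)
    (hS : ∀ (k : ℕ) (M : SimpleGraph (Fin k)), S k M → ∀ i j, M.Adj i j →
      (M.neighborSet i).ncard ≤ 5 ∨ (M.neighborSet j).ncard ≤ 5)
    (q : ℝ) (hq : 4 < q) (hpos : ∀ (k : ℕ) (M : SimpleGraph (Fin k)), S k M →
      0 < (chr M).eval q) :
    ∀ (n : ℕ) (V : Type) [Finite V] (G : SimpleGraph V), Nat.card V = n → Dich S G →
      0 < (chr G).eval q := by
  intro n
  induction n using Nat.strong_induction_on with
  | _ n ih =>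
    intro V _ G hn hG
    classical
    have : Fintype V := Fintype.ofFinite V
    rcases isEmpty_or_nonempty V with he | hne
    · rw [chr_empty]
      simp
    · let e : Fin (Fintype.card V) ≃ V := (Fintype.equivFin V).symm
      have hiso : Nonempty (Quot G (fun i => ({e i} : Set V)) ≃g G) := by
        refine ⟨⟨e, ?_⟩⟩
        intro i j
        constructor
        · intro h
          refine ⟨fun hij => ?_, e i, rfl, e j, rfl, h⟩
          rw [hij] at h
          exact G.loopless.irrefl _ h
        · rintro ⟨_, x, hx, y, hy, hxy⟩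
          rw [Set.mem_singleton_iff] at hx hy
          subst hx
          subst hy
          exact hxy
      obtain ⟨φ⟩ := hiso
      rcases hG (Fintype.card V) (fun i => {e i}) Fintype.card_pos
        (fun i => ⟨⟨e i, rfl⟩, by
          intro x hx y hy
          rw [Set.mem_singleton_iff] at hx hy
          subst hx
          subst hy
          exact ⟨SimpleGraph.Walk.nil, by simp⟩⟩)
        (fun i j hij => by
          rw [Set.disjoint_singleton]
          exact fun h => hij (e.injective h)) with ⟨i, hi⟩ | hM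
      · set v : V := φ i with hvdef
        have hv : (G.neighborSet v).ncard ≤ 4 := by
          have h1 : G.neighborSet v = φ '' ((Quot G (fun i => ({e i} : Set V))).neighborSet i) := by
            ext y
            constructor
            · intro hy
              refine ⟨φ.symm y, ?_, by simp⟩
              have hy' : G.Adj (φ i) (φ (φ.symm y)) := by
                rw [RelIso.apply_symm_apply]
                exact hy
              exact φ.map_rel_iff.1 hy'
            · rintro ⟨j, hj, rfl⟩
              exact φ.map_rel_iff.2 hj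
          rw [h1, Set.ncard_image_of_injective _ φ.injective]
          exact hi
        have hc := card_sub v
        have hH := (dich_mc S hS).vertex V G v hG
        have hHp := ih (n - 1) (by omega) _ _ (by omega) hH
        obtain ⟨D, hD, hGD⟩ := exp_at (fun V G => Dich S G) (dich_mc S hS) V G v
          hG (fun p => 0 ≤ p.eval q) (by simp)
          (by
            intro a b ha hb
            rw [eval_add]
            exact add_nonneg ha hb)
          (by
            intro w M hM
            have hc2 := card_sub w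
            exact (ih (n - 2) (by omega) _ M (by omega) hM).le)
        rw [hGD, eval_add, eval_mul, eval_sub, eval_X, eval_C]
        have hd4 : ((G.neighborSet v).ncard : ℝ) ≤ 4 := by exact_mod_cast hv
        have := mul_pos (by linarith : 0 < q - ((G.neighborSet v).ncard : ℝ)) hHp
        linarith
      · rw [← chr_of_iso _ _ φ]
        exact hpos _ _ hM

end Pool.Agent.R814.BL
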