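import Pool.Agent.H207R2.BL.Woodall

/-!
Counting the colourings of a concrete graph by the patterns of equal colours.
-/

set_option autoImplicit false

namespace Pool.Agent.R814.BL

open Finset Polynomial Pool.Agent.H207R2.BL

/-- the colour `c` is admissible: it differs from the entries of the list in the marked places -/
def okm : List Bool → List ℕ → ℕ → Bool
  | [], _, _ => true
  | _ :: _, [], _ => true
  | m :: s, x :: p, c => (!(m && x == c)) && okm s p c

theorem okm_map (e : ℕ → ℕ) (b j : ℕ) (hj : j < b) (he : Set.InjOn e {i | i < b}) :
    ∀ (s : List Bool) (p : List ℕ), (∀ c ∈ p, c < b) → okm s (p.map e) (e j) = okm s p j := by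
  intro s
  induction s with
  | nil => intro p _; simp [okm]
  | cons m s ih =>
    intro p hp
    cases p with
    | nil => simp [okm]
    | cons x p =>
      have hx : x < b := hp x (by simp)
      have h1 : (e x == e j) = (x == j) := by
        by_cases h : x = j
        · simp [h]
        · have h2 : e x ≠ e j := fun h' => h (he hx hj h')
          simp [h, h2]
      simp only [List.map_cons, okm, h1, ih p (fun c hc => hp c (by simp [hc]))]

theorem okm_new (e : ℕ → ℕ) (c : ℕ) :
    ∀ (s : List Bool) (p : List ℕ), (∀ x ∈ p, e x ≠ c) → okm s (p.map e) c = true := by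
  intro s
  induction s with
  | nil => intro p _; simp [okm]
  | cons m s ih =>
    intro p hp
    cases p with
    | nil => simp [okm]
    | cons x p =>
      have h2 : e x ≠ c := hp x (by simp)
      simp [okm, h2, ih p (fun c hc => hp c (by simp [hc]))]

/-- the number of ways to go on -/
def cntS (k : ℕ) : List (List Bool) → List ℕ → ℕ
  | [], _ => 1
  | s :: rest, L => ∑ c ∈ range k, if okm s L c = true then cntS k rest (c :: L) else 0

/-- addition of lists -/
def addl : List ℕ → List ℕ → List ℕ
  | [], y => y
  | x, [] => x
  | a :: x, b :: y => (a + b) :: addl x y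

/-- patterns -/
def pat : List (List Bool) → List ℕ → ℕ → List ℕ
  | [], _, _ => [1]
  | s :: rest, p, b => (List.range b).foldr
      (fun c acc => if okm s p c = true then addl (pat rest (c :: p) b) acc else acc)
      (0 :: pat rest (b :: p) (b + 1))

/-- the value of a list of coefficients -/
def hv (k : ℕ) : ℕ → List ℕ → ℕ
  | _, [] => 0
  | b, x :: xs => x + (k - b) * hv k (b + 1) xs

theorem hv_addl (k : ℕ) : ∀ (x y : List ℕ) (b : ℕ), hv k b (addl x y) = hv k b x + hv k b y := by
  intro x
  induction x with
  | nil => intro y b; simp [addl, hv]
  | cons a x ih =>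
    intro y b
    cases y with
    | nil => simp [addl, hv]
    | cons c y =>
      simp only [addl, hv, ih]
      ring

theorem hv_foldr (k b : ℕ) (f : ℕ → List ℕ) (g : ℕ → Bool) (base : List ℕ) (l : List ℕ) :
    hv k b (l.foldr (fun c acc => if g c = true then addl (f c) acc else acc) base) =
      (l.map (fun c => if g c = true then hv k b (f c) else 0)).sum + hv k b base := by
  induction l with
  | nil => simp
  | cons a l ih =>
    simp only [List.foldr_cons, List.map_cons, List.sum_cons]
    split_ifs with h
    · rw [hv_addl, ih]
      ring
    · rw [ih]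
      ring

theorem pat_spec (k : ℕ) : ∀ (steps : List (List Bool)) (p : List ℕ) (b : ℕ) (e : ℕ → ℕ),
    (∀ i, i < b → e i < k) → Set.InjOn e {i | i < b} → (∀ c ∈ p, c < b) → b ≤ k →
    cntS k steps (p.map e) = hv k b (pat steps p b) := by
  intro steps
  induction steps with
  | nil =>
    intro p b e _ _ _ _
    simp [cntS, pat, hv]
  | cons s rest ih =>
    intro p b e h1 h2 h3 h4
    rw [pat, hv_foldr, cntS]
    have hsub : (range b).image e ⊆ range k := by
      intro x hx
      obtain ⟨i, hi, rfl⟩ := mem_image.1 hx
      exact mem_range.2 (h1 i (mem_range.1 hi))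
    rw [← sum_sdiff hsub, add_comm]
    congr 1
    · rw [sum_image (fun x hx y hy h => h2 (mem_range.1 hx) (mem_range.1 hy) h)]
      rw [← List.sum_toFinset _ List.nodup_range, List.toFinset_range]
      refine sum_congr rfl (fun j hj => ?_)
      rw [mem_range] at hj
      rw [okm_map e b j hj h2 s p h3]
      split_ifs with h
      · have := ih (j :: p) b e h1 h2 (by
          intro c hc
          rcases List.mem_cons.1 hc with rfl | hc
          · exact hj
          · exact h3 c hc) h4
        rw [← this]
        simp
      · rfl
    · have hall : ∀ c ∈ range k \ (range b).image e,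
          (if okm s (p.map e) c = true then cntS k rest (c :: p.map e) else 0) =
            hv k (b + 1) (pat rest (b :: p) (b + 1)) := by
        intro c hc
        rw [mem_sdiff, mem_range, mem_image] at hc
        obtain ⟨hck, hce⟩ := hc
        have hce' : ∀ i, i < b → e i ≠ c := fun i hi h => hce ⟨i, mem_range.2 hi, h⟩
        rw [if_pos (okm_new e c s p (fun x hx => hce' x (h3 x hx)))]
        have hmap : (b :: p).map (Function.update e b c) = c :: p.map e := by
          rw [List.map_cons, Function.update_self]
          congr 1
          apply List.map_congr_left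
          intro x hx
          rw [Function.update_of_ne (ne_of_lt (h3 x hx))]
        have hbk : b + 1 ≤ k := by
          by_contra hcon
          have hbk : b = k := by omega
          have h5 : (range b).image e = range k := by
            apply eq_of_subset_of_card_le hsub
            rw [card_image_of_injOn (fun x hx y hy h => h2 (by simpa using hx) (by simpa using hy) h),
              card_range, card_range, hbk]
          apply hce
          have h6 : c ∈ (range b).image e := by
            rw [h5]
            exact mem_range.2 hck
          exact mem_image.1 h6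
        have := ih (b :: p) (b + 1) (Function.update e b c) (by
          intro i hi
          by_cases hib : i = b
          · rw [hib, Function.update_self]
            exact hck
          · rw [Function.update_of_ne hib]
            exact h1 i (by omega)) (by
          intro x hx y hy hxy
          have hx' : x < b + 1 := hx
          have hy' : y < b + 1 := hy
          by_cases hxb : x = b
          · by_cases hyb : y = b
            · rw [hxb, hyb]
            · rw [hxb, Function.update_self, Function.update_of_ne hyb] at hxy
              exact absurd hxy.symm (hce' y (by omega))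
          · by_cases hyb : y = b
            · rw [hyb, Function.update_self, Function.update_of_ne hxb] at hxy
              exact absurd hxy (hce' x (by omega))
            · rw [Function.update_of_ne hxb, Function.update_of_ne hyb] at hxy
              have hx2 : x < b := by omega
              have hy2 : y < b := by omega
              exact h2 hx2 hy2 hxy) (by
          intro x hx
          rcases List.mem_cons.1 hx with rfl | hx
          · exact Nat.lt_succ_self _
          · exact (h3 x hx).trans (Nat.lt_succ_self _)) hbk
        rw [← this, hmap]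
      rw [sum_congr rfl hall, sum_const, smul_eq_mul]
      have hcard : (range k \ (range b).image e).card = k - b := by
        rw [card_sdiff_of_subset hsub, card_range,
          card_image_of_injOn (fun x hx y hy h => h2 (by simpa using hx) (by simpa using hy) h),
          card_range]
      rw [hcard]
      simp [hv]

/-- the marks of the neighbours of `m` among `n - 1, …, 0` -/
def mask (adj : ℕ → ℕ → Bool) (m : ℕ) : ℕ → List Bool
  | 0 => []
  | n + 1 => adj m n :: mask adj m n

/-- the marks for the vertices `n, …, n + r - 1` -/
def stepsF (adj : ℕ → ℕ → Bool) : ℕ → ℕ → List (List Bool)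
  | _, 0 => []
  | n, r + 1 => mask adj n n :: stepsF adj (n + 1) r

/-- the list of the colours -/
def Lf {k : ℕ} : (n : ℕ) → (Fin n → Fin k) → List ℕ
  | 0, _ => []
  | n + 1, g => (g (Fin.last n)).val :: Lf n (fun i => g i.castSucc)

theorem okm_mask {k : ℕ} (adj : ℕ → ℕ → Bool) (m c : ℕ) : ∀ (n : ℕ) (h : Fin n → Fin k),
    okm (mask adj m n) (Lf n h) c = true ↔ ∀ i : Fin n, adj m i = true → (h i).val ≠ c := by
  intro n
  induction n with
  | zero => intro h; simp [mask, Lf, okm]
  | succ n ih =>
    intro h
    rw [Fin.forall_fin_succ']
    simp only [mask, Lf, okm, Bool.and_eq_true, Bool.not_eq_true', Bool.and_eq_false_imp,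
      beq_eq_false_iff_ne, ih, Fin.val_castSucc, Fin.val_last]
    constructor
    · rintro ⟨h1, h2⟩
      exact ⟨h2, h1⟩
    · rintro ⟨h1, h2⟩
      exact ⟨h2, h1⟩

/-- proper colourings of the first `n` vertices -/
def PrN {k : ℕ} (adj : ℕ → ℕ → Bool) (n : ℕ) (g : Fin n → Fin k) : Prop :=
  ∀ i j : Fin n, j.val < i.val → adj i j = true → g j ≠ g i

theorem prN_succ {k : ℕ} (adj : ℕ → ℕ → Bool) (n : ℕ) (g : Fin n → Fin k) (c : Fin k) :
    PrN adj (n + 1) (Fin.snoc (α := fun _ => Fin k) g c) ↔
      PrN adj n g ∧ okm (mask adj n n) (Lf n g) c.val = true := by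
  rw [okm_mask]
  constructor
  · intro h
    constructor
    · intro i j hij ha
      have := h i.castSucc j.castSucc hij ha
      simpa using this
    · intro i ha hc
      have := h (Fin.last n) i.castSucc (by simp) (by simpa using ha)
      rw [Fin.snoc_castSucc, Fin.snoc_last] at this
      exact this (Fin.ext hc)
  · rintro ⟨h1, h2⟩ i j hij ha
    induction i using Fin.lastCases with
    | last =>
      induction j using Fin.lastCases with
      | last => exact absurd hij (lt_irrefl _)
      | cast j =>
        rw [Fin.snoc_castSucc, Fin.snoc_last]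
        intro h
        exact h2 j (by simpa using ha) (congrArg Fin.val h)
    | cast i =>
      induction j using Fin.lastCases with
      | last =>
        have := i.2
        simp at hij
        omega
      | cast j =>
        rw [Fin.snoc_castSucc, Fin.snoc_castSucc]
        exact h1 i j hij ha

open Classical in
theorem sum_step (k : ℕ) (adj : ℕ → ℕ → Bool) (n r : ℕ) :
    (∑ g : Fin n → Fin k, if PrN adj n g then cntS k (stepsF adj n (r + 1)) (Lf n g) else 0) =
      ∑ g : Fin (n + 1) → Fin k,
        if PrN adj (n + 1) g then cntS k (stepsF adj (n + 1) r) (Lf (n + 1) g) else 0 := by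
  rw [← Equiv.sum_comp (Fin.snocEquiv (fun _ : Fin (n + 1) => Fin k)), Fintype.sum_prod_type,
    sum_comm]
  refine sum_congr rfl (fun g _ => ?_)
  have h1 : ∀ c : Fin k, Fin.snocEquiv (fun _ : Fin (n + 1) => Fin k) (c, g) =
      Fin.snoc (α := fun _ => Fin k) g c := fun c => rfl
  have h2 : ∀ c : Fin k, Lf (n + 1) (Fin.snoc (α := fun _ => Fin k) g c) = c.val :: Lf n g := by
    intro c
    simp [Lf]
  simp only [h1, h2, prN_succ]
  by_cases hg : PrN adj n g
  · rw [if_pos hg]
    simp only [hg, true_and, stepsF, cntS]
    rw [Finset.sum_range]
  · rw [if_neg hg]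
    simp [hg]

open Classical in
theorem sum_all (k : ℕ) (adj : ℕ → ℕ → Bool) : ∀ r n : ℕ,
    (∑ g : Fin n → Fin k, if PrN adj n g then cntS k (stepsF adj n r) (Lf n g) else 0) =
      Nat.card {g : Fin (n + r) → Fin k // PrN adj (n + r) g} := by
  intro r
  induction r with
  | zero =>
    intro n
    rw [Nat.card_eq_fintype_card, Fintype.card_subtype]
    simp only [stepsF, cntS]
    rw [card_filter]
    rfl
  | succ r ih =>
    intro n
    rw [sum_step, ih (n + 1)]
    have : n + 1 + r = n + (r + 1) := by omega
    rw [this]

theorem card_pat (k : ℕ) (adj : ℕ → ℕ → Bool) (n : ℕ) :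
    Nat.card {g : Fin n → Fin k // PrN adj n g} = hv k 0 (pat (stepsF adj 0 n) [] 0) := by
  classical
  have h := sum_all k adj n 0
  have h0 : 0 + n = n := zero_add n
  rw [h0] at h
  rw [← h]
  have h1 : ∀ g : Fin 0 → Fin k, PrN adj 0 g := fun g i => i.elim0
  rw [Fintype.sum_eq_single (fun i : Fin 0 => i.elim0) (fun g hg => absurd (Subsingleton.elim _ _) hg),
    if_pos (h1 _)]
  have := pat_spec k (stepsF adj 0 n) [] 0 id (by simp) (by intro x hx; simp at hx) (by simp)
    (Nat.zero_le _)
  rw [← this]
  rfl

/-- polynomial of a list of coefficients -/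
noncomputable def hvP : ℕ → List ℕ → ℝ[X]
  | _, [] => 0
  | b, x :: xs => C (x : ℝ) + (X - C (b : ℝ)) * hvP (b + 1) xs

theorem hvP_eval (k : ℕ) : ∀ (a : List ℕ) (b : ℕ), b ≤ k → (hvP b a).eval (k : ℝ) = (hv k b a : ℝ) := by
  intro a
  induction a with
  | nil => intro b _; simp [hvP, hv]
  | cons x xs ih =>
    intro b hb
    simp only [hvP, hv, eval_add, eval_mul, eval_sub, eval_C, eval_X]
    rcases hb.eq_or_lt with h | h
    · subst h
      simp
    · rw [ih (b + 1) h]
      push_cast [Nat.cast_sub hb]
      ring

end Pool.Agent.R814.BL
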