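import Pool.Agent.R814.BL.Eval

/-!
The chromatic polynomial of the icosahedron.
-/

set_option autoImplicit false

namespace Pool.Agent.R814.BL

open Finset Polynomial Pool.Agent.H207R2.BL

/-- the neighbours in the icosahedron: vertex `0` is joined to `1, …, 5`, vertex `11` to
`6, …, 10` -/
def icoN : List (List ℕ) :=
  [[1, 2, 3, 4, 5], [0, 2, 5, 6, 7], [0, 1, 3, 7, 8], [0, 2, 4, 8, 9], [0, 3, 5, 9, 10], [0, 1, 4, 6, 10], [1, 5, 7, 10, 11], [1, 2, 6, 8, 11], [2, 3, 7, 9, 11], [3, 4, 8, 10, 11], [4, 5, 6, 9, 11], [6, 7, 8, 9, 10]]

/-- adjacency in the icosahedron -/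
def icoB (i j : ℕ) : Bool := (icoN.getD i []).contains j

/-- the graph of the icosahedron -/
def ico : SimpleGraph (Fin 12) where
  Adj i j := icoB i.val j.val = true
  symm := ⟨by decide⟩
  loopless := ⟨by decide⟩

/-- the marks -/
def icoS : List (List Bool) :=
  [[],
   [true],
   [true, true],
   [true, false, true],
   [true, false, false, true],
   [true, false, false, true, true],
   [true, false, false, false, true, false],
   [true, false, false, false, true, true, false],
   [true, false, false, false, true, true, false, false],
   [true, false, false, false, true, true, false, false, false],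
   [true, false, false, true, true, true, false, false, false, false],
   [true, true, true, true, true, false, false, false, false, false, false]]

theorem icoS_eq : stepsF icoB 0 12 = icoS := by decide +kernel

theorem ico_pat : pat icoS [] 0 = [0, 0, 0, 0, 10, 660, 4908, 10008, 7900, 2800, 470, 36, 1] := by
  decide +kernel

end Pool.Agent.R814.BL
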