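import Pool.Agent.R814.BL.Ico
import Pool.Agent.R814.BL.Dich

/-!
Graphs whose only minor of minimum degree five is the icosahedron.
-/

set_option autoImplicit false
set_option linter.unusedSectionVars false

namespace Pool.Agent.R814.BL

open Finset Polynomial Pool.Agent.H207R2.BL Pool.Agent.Y865.RF

theorem ico_adj : ∀ i j : Fin 12, ico.Adj i j ↔ icoB i.val j.val = true := fun _ _ => Iff.rfl

theorem icoB_symm : ∀ i j : Fin 12, icoB i.val j.val = true → icoB j.val i.val = true := by decide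

theorem ico_ne : ∀ i j : Fin 12, icoB i.val j.val = true → i.val ≠ j.val := by decide

theorem prN_ico (k : ℕ) (g : Fin 12 → Fin k) : PrN icoB 12 g ↔ Proper ico g := by
  constructor
  · intro h i j hij
    rcases lt_or_gt_of_ne (ico_ne i j hij) with h1 | h1
    · exact h j i h1 (icoB_symm i j hij)
    · exact (h i j h1 hij).symm
  · intro h i j _ hij
    exact (h i j hij).symm

theorem chr_ico : chr ico =
    hvP 0 [0, 0, 0, 0, 10, 660, 4908, 10008, 7900, 2800, 470, 36, 1] := by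
  symm
  apply eq_chr
  intro k
  rw [card_colorings, hvP_eval k _ 0 (Nat.zero_le k), ← ico_pat, ← icoS_eq, ← card_pat]
  congr 1
  exact Nat.card_congr (Equiv.subtypeEquivRight (fun g => prN_ico k g))

theorem chr_ico_eval (q : ℝ) : (chr ico).eval q =
      q * (q - 1) * (q - 2) * (q - 3) * (10 + 48 * (q - 4) + 128 * (q - 4) ^ 2 +
        190 * (q - 4) ^ 3 + 159 * (q - 4) ^ 4 + 90 * (q - 4) ^ 5 + 36 * (q - 4) ^ 6 +
        8 * (q - 4) ^ 7 + (q - 4) ^ 8) := by
  rw [chr_ico]
  simp only [hvP, eval_add, eval_mul, eval_sub, eval_C, eval_X, eval_zero]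
  norm_num
  ring

theorem ico_eval (p : ℝ[X])
    (hp : ∀ k : ℕ, p.eval (k : ℝ) = (Nat.card (ico.Coloring (Fin k)) : ℝ)) (q : ℝ) :
    p.eval q = q * (q - 1) * (q - 2) * (q - 3) * (10 + 48 * (q - 4) + 128 * (q - 4) ^ 2 +
        190 * (q - 4) ^ 3 + 159 * (q - 4) ^ 4 + 90 * (q - 4) ^ 5 + 36 * (q - 4) ^ 6 +
        8 * (q - 4) ^ 7 + (q - 4) ^ 8) := by
  have hpc : p = chr ico := eq_chr hp
  rw [hpc]
  exact chr_ico_eval q

theorem ico_pos (q : ℝ) (hq : 4 < q) : 0 < (chr ico).eval q := by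
  rw [chr_ico_eval]
  have h0 : 0 < q - 4 := by linarith
  have h1 : 0 < q := by linarith
  have h2 : 0 < q - 1 := by linarith
  have h3 : 0 < q - 2 := by linarith
  have h4 : 0 < q - 3 := by linarith
  positivity

theorem ico_deg : ∀ i : Fin 12, (ico.neighborSet i).ncard ≤ 5 := by
  intro i
  have h : ∀ i : Fin 12, (univ.filter (fun j : Fin 12 => icoB i.val j.val = true)).card ≤ 5 := by
    decide
  refine le_trans (le_of_eq ?_) (h i)
  rw [← Set.ncard_coe_finset]
  congr 1
  ext j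
  simp only [SimpleGraph.mem_neighborSet, ico_adj, coe_filter, mem_univ, true_and,
    Set.mem_ofPred_eq]

/-- the icosahedron, up to isomorphism -/
def SI (k : ℕ) (M : SimpleGraph (Fin k)) : Prop := Nonempty (M ≃g ico)

theorem SI_deg (k : ℕ) (M : SimpleGraph (Fin k)) (h : SI k M) (i j : Fin k) (_ : M.Adj i j) :
    (M.neighborSet i).ncard ≤ 5 ∨ (M.neighborSet j).ncard ≤ 5 := by
  left
  obtain ⟨φ⟩ := h
  have h1 : ico.neighborSet (φ i) = φ '' (M.neighborSet i) := by
    ext y
    constructor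
    · intro hy
      refine ⟨φ.symm y, ?_, by simp⟩
      have hy' : ico.Adj (φ i) (φ (φ.symm y)) := by
        rw [RelIso.apply_symm_apply]
        exact hy
      exact φ.map_rel_iff.1 hy'
    · rintro ⟨j, hj, rfl⟩
      exact φ.map_rel_iff.2 hj
  have h2 := ico_deg (φ i)
  rw [h1, Set.ncard_image_of_injective _ φ.injective] at h2
  exact h2

theorem ico_main {V : Type} [Finite V] (G : SimpleGraph V) (hG : Dich SI G) (p : ℝ[X])
    (hp : ∀ k : ℕ, p.eval (k : ℝ) = (Nat.card (G.Coloring (Fin k)) : ℝ)) (q : ℝ) (hq : 4 < q) :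
    0 < p.eval q := by
  have hpc : p = chr G := eq_chr hp
  subst hpc
  refine dich_pos SI SI_deg q hq ?_ _ V G rfl hG
  intro k M hM
  obtain ⟨φ⟩ := hM
  rw [chr_of_iso M ico φ]
  exact ico_pos q hq

end Pool.Agent.R814.BL
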