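import Pool.Agent.R814.BL.Count

/-!
The sharp Kempe inequalities.
-/

set_option autoImplicit false

namespace Pool.Agent.R814.BL

open Pool.Agent.H207R2.BL Pool.Agent.Y865.RF Finset

section five

variable {V : Type} [Fintype V] [DecidableEq V] (G : SimpleGraph V) (v : V)
  (a : Fin 5 → {x : V // x ≠ v})

theorem inj5 {g : {x : V // x ≠ v} → Fin 5} (h : (miss a g).card = 0) :
    Function.Injective (fun k => g (a k)) := by
  apply inj_of_card
  rw [miss_card] at h
  have h1 : (univ.image (fun k => g (a k))).card ≤ 5 := by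
    refine (card_le_univ _).trans ?_
    rw [Fintype.card_fin]
  omega

open Classical in
theorem cnt_i (ha : ∀ k, G.Adj v (a k).1) (hW : Cl V G) :
    3 * (XX G v a 0).card ≤ (XX G v a 1).card := by
  have h1 : 3 * (XX G v a 0).card ≤ ((XX G v a 0).sigma (fun g =>
      univ.filter (fun p : Fin 5 × Fin 5 => p.1 < p.2 ∧ ¬ Con G v a g p.1 p.2))).card := by
    rw [card_sigma, mul_comm, ← smul_eq_mul]
    refine card_nsmul_le_sum _ _ _ ?_
    intro g hg
    exact (pairs5 G v a ha hW g (inj5 v a ((mem_XX G v a).1 hg).2)).2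
  refine h1.trans ?_
  refine card_le_card_of_injOn (fun s => S1 G v a s.1 s.2.1 s.2.2) ?_ ?_
  · rintro ⟨g, i, j⟩ hg
    rw [mem_coe, mem_sigma, mem_XX, mem_filter] at hg
    obtain ⟨⟨hp, hm⟩, _, hij, hc⟩ := hg
    have hinj := inj5 v a hm
    rw [mem_coe, mem_XX]
    refine ⟨ksw_proper hp _ _ _, ?_⟩
    rw [miss_card' a g _ hinj (r1 i j) (S1_val G v a g hinj i j hc), r1_card5 i j hij]
  · rintro ⟨g, i, j⟩ hg ⟨g', i', j'⟩ hg' he
    rw [mem_coe, mem_sigma, mem_XX, mem_filter] at hg hg'
    obtain ⟨⟨hp, hm⟩, _, hij, hc⟩ := hg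
    obtain ⟨⟨hp', hm'⟩, _, hij', hc'⟩ := hg'
    have hinj := inj5 v a hm
    have hinj' := inj5 v a hm'
    have he : S1 G v a g i j = S1 G v a g' i' j' := he
    have v1 := S1_val G v a g hinj i j hc
    have v2 := S1_val G v a g' hinj' i' j' hc'
    rw [← he] at v2
    have hr : r1 i' j' i' = r1 i' j' j' := by
      unfold r1
      rw [if_pos rfl, if_neg (ne_of_lt hij').symm]
    have e1 : r1 i j i' = r1 i j j' := by
      apply hinj
      change g (a (r1 i j i')) = g (a (r1 i j j'))
      rw [← v1, ← v1, v2, v2, hr]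
    obtain ⟨rfl, rfl⟩ := r1_rec hij hij' e1
    have cj : g (a j') = g' (a j') := by
      have h2 := v1 j'
      have h3 := v2 j'
      have h4 : r1 i' j' j' = j' := by
        unfold r1
        rw [if_neg (ne_of_lt hij).symm]
      rw [h4] at h2 h3
      exact h2.symm.trans h3
    have cp : ∀ p, p ≠ i' → g (a p) = g' (a p) := by
      intro p hpi
      have h2 := v1 p
      have h3 := v2 p
      have h4 : r1 i' j' p = p := by
        unfold r1
        rw [if_neg hpi]
      rw [h4] at h2 h3
      exact h2.symm.trans h3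
    have ci : g (a i') = g' (a i') := by
      by_contra hne
      obtain ⟨p, hpe⟩ := (Finite.injective_iff_surjective.1 hinj') (g (a i'))
      have hpe : g' (a p) = g (a i') := hpe
      by_cases hpi : p = i'
      · rw [hpi] at hpe
        exact hne hpe.symm
      · rw [← cp p hpi] at hpe
        exact hpi (hinj hpe)
    have hgg : g = g' := by
      rw [← S1_inv G v a g i' j', ← S1_inv G v a g' i' j', he, ci, cj]
    subst hgg
    rfl

theorem cnt_ii (ha : ∀ k, G.Adj v (a k).1) (hW : Cl V G) :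
    (XX G v a 0).card ≤ 2 * (XX G v a 2).card := by
  classical
  have h1 : ((XX G v a 2).sigma (fun g => miss a g)).card = 2 * (XX G v a 2).card := by
    rw [card_sigma, sum_congr rfl (g := fun _ => 2) (fun g hg => ((mem_XX G v a).1 hg).2),
      sum_const, smul_eq_mul, mul_comm]
  rw [← h1]
  refine card_le_card_of_forall_subsingleton
    (fun (g : {x : V // x ≠ v} → Fin 5) (s : Σ _ : ({x : V // x ≠ v} → Fin 5), Fin 5) =>
      ∃ i j k l : Fin 5, i < j ∧ k < l ∧ i < k ∧ j ≠ k ∧ j ≠ l ∧ ¬ Con G v a g i j ∧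
      ¬ Con G v a g k l ∧ s.1 = S2 G v a g i j k l ∧ s.2 = g (a i)) ?_ ?_
  · intro g hg
    rw [mem_XX] at hg
    obtain ⟨hp, hm⟩ := hg
    have hinj := inj5 v a hm
    obtain ⟨i, j, k, l, hij, hkl, hik, hjk, hjl, hc, hd⟩ := (pairs5 G v a ha hW g hinj).1
    have hv := S2_val G v a g hinj i j k l (ne_of_lt hik) (ne_of_lt (hik.trans hkl)) hjk hjl hc hd
    refine ⟨⟨S2 G v a g i j k l, g (a i)⟩, ?_, i, j, k, l, hij, hkl, hik, hjk, hjl, hc, hd,
      rfl, rfl⟩
    rw [mem_sigma, mem_XX, mem_miss]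
    refine ⟨⟨ksw_proper (ksw_proper hp _ _ _) _ _ _, ?_⟩, ?_⟩
    · rw [miss_card' a g _ hinj (r2 i j k l) hv, r2_card i j hij k hik hjk l hkl hjl]
    · intro p
      change S2 G v a g i j k l (a p) ≠ g (a i)
      rw [hv]
      exact fun h => r2_ne hij hkl hik p (hinj h)
  · rintro ⟨z, c⟩ _ g ⟨hg, i, j, k, l, hij, hkl, hik, hjk, hjl, hc, hd, hz, hci⟩ g'
      ⟨hg', i', j', k', l', hij', hkl', hik', hjk', hjl', hc', hd', hz', hci'⟩
    rw [mem_XX] at hg hg'
    have hinj := inj5 v a hg.2
    have hinj' := inj5 v a hg'.2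
    have hz : z = S2 G v a g i j k l := hz
    have hz' : z = S2 G v a g' i' j' k' l' := hz'
    have hci : c = g (a i) := hci
    have hci' : c = g' (a i') := hci'
    have v1 := S2_val G v a g hinj i j k l (ne_of_lt hik) (ne_of_lt (hik.trans hkl)) hjk hjl hc hd
    have v2 := S2_val G v a g' hinj' i' j' k' l' (ne_of_lt hik') (ne_of_lt (hik'.trans hkl'))
      hjk' hjl' hc' hd'
    rw [← hz] at v1
    rw [← hz'] at v2
    have hr1 : r2 i' j' k' l' i' = r2 i' j' k' l' j' := by
      unfold r2
      rw [if_pos rfl, if_neg (ne_of_lt hij').symm, if_neg hjk']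
    have hr2 : r2 i' j' k' l' k' = r2 i' j' k' l' l' := by
      unfold r2
      rw [if_neg (ne_of_lt hik').symm, if_pos rfl, if_neg (ne_of_lt (hik'.trans hkl')).symm,
        if_neg (ne_of_lt hkl').symm]
    have e1 : r2 i j k l i' = r2 i j k l j' := by
      apply hinj
      change g (a (r2 i j k l i')) = g (a (r2 i j k l j'))
      rw [← v1, ← v1, v2, v2, hr1]
    have e2 : r2 i j k l k' = r2 i j k l l' := by
      apply hinj
      change g (a (r2 i j k l k')) = g (a (r2 i j k l l'))
      rw [← v1, ← v1, v2, v2, hr2]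
    obtain ⟨rfl, rfl, rfl, rfl⟩ := r2_rec hij hkl hik hjk hjl hij' hkl' hik' e1 e2
    have cp : ∀ p, p ≠ i' → p ≠ k' → g (a p) = g' (a p) := by
      intro p hpi hpk
      have h2 := v1 p
      have h3 := v2 p
      have h4 : r2 i' j' k' l' p = p := by
        unfold r2
        rw [if_neg hpi, if_neg hpk]
      rw [h4] at h2 h3
      exact h2.symm.trans h3
    have ci : g (a i') = g' (a i') := hci.symm.trans hci'
    have ck : g (a k') = g' (a k') := by
      by_contra hne
      obtain ⟨p, hpe⟩ := (Finite.injective_iff_surjective.1 hinj') (g (a k'))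
      have hpe : g' (a p) = g (a k') := hpe
      by_cases hpk : p = k'
      · rw [hpk] at hpe
        exact hne hpe.symm
      · by_cases hpi : p = i'
        · rw [hpi, ← ci] at hpe
          exact (ne_of_lt hik) (hinj hpe)
        · rw [← cp p hpi hpk] at hpe
          exact hpk (hinj hpe)
    have cj : g (a j') = g' (a j') := cp j' (ne_of_lt hij).symm hjk
    have cl : g (a l') = g' (a l') := cp l' (ne_of_lt (hik.trans hkl)).symm (ne_of_lt hkl).symm
    have hS : S1 G v a g i' j' = S1 G v a g' i' j' := by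
      rw [← S2_inv G v a g i' j' k' l', ← S2_inv G v a g' i' j' k' l', ← hz, ← hz', ck, cl]
    rw [← S1_inv G v a g i' j', ← S1_inv G v a g' i' j', hS, ci, cj]

theorem kempe5 (ha : ∀ k, G.Adj v (a k).1) (ha' : ∀ u, G.Adj v u → ∃ k, (a k).1 = u)
    (hW : Cl V G) : 8 * (PP G v).card ≤ 9 * Nat.card {y : V → Fin 5 // Proper G y} := by
  classical
  have h1 := sum_miss_le G v a ha'
  have h2 := cnt_i G v a ha hW
  have h3 := cnt_ii G v a ha hW
  have h4 : ∑ g ∈ PP G v, (8 + (if (miss a g).card = 1 then 1 else 0) +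
      10 * (if (miss a g).card = 2 then 1 else 0)) ≤
      ∑ g ∈ PP G v, (9 * (miss a g).card + 8 * (if (miss a g).card = 0 then 1 else 0)) := by
    refine sum_le_sum (fun g _ => ?_)
    split_ifs <;> omega
  rw [sum_add_distrib, sum_add_distrib, sum_add_distrib, ← mul_sum, ← mul_sum, ← mul_sum,
    ← card_filter, ← card_filter, ← card_filter, sum_const, smul_eq_mul] at h4
  change _ + (XX G v a 1).card + 10 * (XX G v a 2).card ≤ _ + 8 * (XX G v a 0).card at h4
  omega

end five

section four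

variable {V : Type} [Fintype V] [DecidableEq V] (G : SimpleGraph V) (v : V)
  (a : Fin 4 → {x : V // x ≠ v})

theorem image4 (g : {x : V // x ≠ v} → Fin 5) : (univ.image (fun k => g (a k))).card ≤ 4 := by
  refine card_image_le.trans ?_
  rw [card_univ, Fintype.card_fin]

theorem inj4 {g : {x : V // x ≠ v} → Fin 5} (h : (miss a g).card = 1) :
    Function.Injective (fun k => g (a k)) := by
  apply inj_of_card
  rw [miss_card] at h
  have h1 := image4 v a g
  omega

theorem miss4 (g : {x : V // x ≠ v} → Fin 5) : 1 ≤ (miss a g).card := by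
  rw [miss_card]
  have h1 := image4 v a g
  omega

theorem pair4 (ha : ∀ k, G.Adj v (a k).1) (hW : Cl V G) (g : {x : V // x ≠ v} → Fin 5)
    (hinj : Function.Injective (fun k => g (a k))) :
    ∃ i j : Fin 4, i < j ∧ ¬ Con G v a g i j := by
  by_contra hcon
  push Not at hcon
  exact no_K4 G v a ha hW.1 g hinj id Function.injective_id (fun i j hij => hcon i j hij)

theorem cnt_4 (ha : ∀ k, G.Adj v (a k).1) (hW : Cl V G) :
    (XX G v a 1).card ≤ 2 * (XX G v a 2).card := by
  classical
  have h1 : ((XX G v a 2).sigma (fun g => miss a g)).card = 2 * (XX G v a 2).card := by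
    rw [card_sigma, sum_congr rfl (g := fun _ => 2) (fun g hg => ((mem_XX G v a).1 hg).2),
      sum_const, smul_eq_mul, mul_comm]
  rw [← h1]
  refine card_le_card_of_forall_subsingleton
    (fun (g : {x : V // x ≠ v} → Fin 5) (s : Σ _ : ({x : V // x ≠ v} → Fin 5), Fin 5) =>
      ∃ i j : Fin 4, i < j ∧ ¬ Con G v a g i j ∧ s.1 = S1 G v a g i j ∧ s.2 = g (a i)) ?_ ?_
  · intro g hg
    rw [mem_XX] at hg
    obtain ⟨hp, hm⟩ := hg
    have hinj := inj4 v a hm
    obtain ⟨i, j, hij, hc⟩ := pair4 G v a ha hW g hinj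
    have hv := S1_val G v a g hinj i j hc
    refine ⟨⟨S1 G v a g i j, g (a i)⟩, ?_, i, j, hij, hc, rfl, rfl⟩
    rw [mem_sigma, mem_XX, mem_miss]
    refine ⟨⟨ksw_proper hp _ _ _, ?_⟩, ?_⟩
    · rw [miss_card' a g _ hinj (r1 i j) hv, r1_card4 i j hij]
    · intro p
      change S1 G v a g i j (a p) ≠ g (a i)
      rw [hv]
      exact fun h => r1_ne hij p (hinj h)
  · rintro ⟨z, c⟩ _ g ⟨hg, i, j, hij, hc, hz, hci⟩ g' ⟨hg', i', j', hij', hc', hz', hci'⟩
    rw [mem_XX] at hg hg'
    have hinj := inj4 v a hg.2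
    have hinj' := inj4 v a hg'.2
    have hz : z = S1 G v a g i j := hz
    have hz' : z = S1 G v a g' i' j' := hz'
    have hci : c = g (a i) := hci
    have hci' : c = g' (a i') := hci'
    have v1 := S1_val G v a g hinj i j hc
    have v2 := S1_val G v a g' hinj' i' j' hc'
    rw [← hz] at v1
    rw [← hz'] at v2
    have hr1 : r1 i' j' i' = r1 i' j' j' := by
      unfold r1
      rw [if_pos rfl, if_neg (ne_of_lt hij').symm]
    have e1 : r1 i j i' = r1 i j j' := by
      apply hinj
      change g (a (r1 i j i')) = g (a (r1 i j j'))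
      rw [← v1, ← v1, v2, v2, hr1]
    obtain ⟨rfl, rfl⟩ := r1_rec hij hij' e1
    have ci : g (a i') = g' (a i') := hci.symm.trans hci'
    have cj : g (a j') = g' (a j') := by
      have h2 := v1 j'
      have h3 := v2 j'
      have h4 : r1 i' j' j' = j' := by
        unfold r1
        rw [if_neg (ne_of_lt hij).symm]
      rw [h4] at h2 h3
      exact h2.symm.trans h3
    rw [← S1_inv G v a g i' j', ← S1_inv G v a g' i' j', ← hz, ← hz', ci, cj]

theorem kempe4 (ha : ∀ k, G.Adj v (a k).1) (ha' : ∀ u, G.Adj v u → ∃ k, (a k).1 = u)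
    (hW : Cl V G) : 4 * (PP G v).card ≤ 3 * Nat.card {y : V → Fin 5 // Proper G y} := by
  classical
  have h1 := sum_miss_le G v a ha'
  have h3 := cnt_4 G v a ha hW
  have h4 : ∑ g ∈ PP G v, (4 + 2 * (if (miss a g).card = 2 then 1 else 0)) ≤
      ∑ g ∈ PP G v, (3 * (miss a g).card + (if (miss a g).card = 1 then 1 else 0)) := by
    refine sum_le_sum (fun g _ => ?_)
    have := miss4 v a g
    split_ifs <;> omega
  rw [sum_add_distrib, sum_add_distrib, ← mul_sum, ← mul_sum,
    ← card_filter, ← card_filter, sum_const, smul_eq_mul] at h4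
  change _ + 2 * (XX G v a 2).card ≤ _ + (XX G v a 1).card at h4
  omega

end four

/-- **sharp Kempe inequality, degree five** -/
theorem kempe_five {V : Type} [Finite V] (G : SimpleGraph V) (v : V) (hW : Cl V G)
    (hdeg : (G.neighborSet v).ncard = 5) :
    8 * Nat.card {g : {x : V // x ≠ v} → Fin 5 // Proper (G.comap Subtype.val) g} ≤
      9 * Nat.card {g : V → Fin 5 // Proper G g} := by
  classical
  have : Fintype V := Fintype.ofFinite V
  have hcard : Nat.card (G.neighborSet v) = 5 := hdeg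
  have e : G.neighborSet v ≃ Fin 5 := Finite.equivFinOfCardEq hcard
  have h := kempe5 G v (fun k => ⟨(e.symm k).1, (e.symm k).2.ne'⟩) (fun k => (e.symm k).2)
    (fun u hu => ⟨e ⟨u, hu⟩, by
      change ((e.symm (e ⟨u, hu⟩)).1 : V) = u
      rw [Equiv.symm_apply_apply]⟩) hW
  have h2 : Nat.card {g : {x : V // x ≠ v} → Fin 5 // Proper (G.comap Subtype.val) g} =
      (PP G v).card := by
    rw [Nat.card_eq_fintype_card, Fintype.card_subtype]
    rfl
  rw [h2]
  exact h

/-- **sharp Kempe inequality, degree four** -/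
theorem kempe_four {V : Type} [Finite V] (G : SimpleGraph V) (v : V) (hW : Cl V G)
    (hdeg : (G.neighborSet v).ncard = 4) :
    4 * Nat.card {g : {x : V // x ≠ v} → Fin 5 // Proper (G.comap Subtype.val) g} ≤
      3 * Nat.card {g : V → Fin 5 // Proper G g} := by
  classical
  have : Fintype V := Fintype.ofFinite V
  have hcard : Nat.card (G.neighborSet v) = 4 := hdeg
  have e : G.neighborSet v ≃ Fin 4 := Finite.equivFinOfCardEq hcard
  have h := kempe4 G v (fun k => ⟨(e.symm k).1, (e.symm k).2.ne'⟩) (fun k => (e.symm k).2)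
    (fun u hu => ⟨e ⟨u, hu⟩, by
      change ((e.symm (e ⟨u, hu⟩)).1 : V) = u
      rw [Equiv.symm_apply_apply]⟩) hW
  have h2 : Nat.card {g : {x : V // x ≠ v} → Fin 5 // Proper (G.comap Subtype.val) g} =
      (PP G v).card := by
    rw [Nat.card_eq_fintype_card, Fintype.card_subtype]
    rfl
  rw [h2]
  exact h

end Pool.Agent.R814.BL
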