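import Pool.Agent.R814.BL.WB

/-!
Kempe changes.
-/

set_option autoImplicit false

namespace Pool.Agent.R814.BL

open Pool.Agent.H207R2.BL Pool.Agent.Y865.RF

section

variable {W : Type} (H : SimpleGraph W)

/-- the vertices of two colours -/
def Tw (g : W → Fin 5) (c d : Fin 5) : Set W := {x | g x = c ∨ g x = d}

theorem Tw_comm (g : W → Fin 5) (c d : Fin 5) : Tw g c d = Tw g d c := by
  ext x
  exact or_comm

open Classical in
/-- the Kempe change at `u` with the colours `c` and `d` -/
noncomputable def ksw (g : W → Fin 5) (c d : Fin 5) (u : W) : W → Fin 5 := fun x =>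
  if Cn H (Tw g c d) u x then Equiv.swap c d (g x) else g x

variable {H}

theorem cn_mem {S : Set W} {u x : W} (h : Cn H S u x) : x ∈ S := by
  obtain ⟨w, hw⟩ := h
  exact hw x w.end_mem_support

theorem ksw_pos {g : W → Fin 5} {c d : Fin 5} {u x : W} (h : Cn H (Tw g c d) u x) :
    ksw H g c d u x = Equiv.swap c d (g x) := by
  unfold ksw
  rw [if_pos h]

theorem ksw_neg {g : W → Fin 5} {c d : Fin 5} {u x : W} (h : ¬ Cn H (Tw g c d) u x) :
    ksw H g c d u x = g x := by
  unfold ksw
  rw [if_neg h]

theorem ksw_off {g : W → Fin 5} {c d : Fin 5} {u x : W} (h1 : g x ≠ c) (h2 : g x ≠ d) :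
    ksw H g c d u x = g x :=
  ksw_neg (fun h => (cn_mem h).elim h1 h2)

theorem ksw_self {g : W → Fin 5} {c d : Fin 5} {u : W} (h : g u = c) :
    ksw H g c d u u = d := by
  rw [ksw_pos (Cn.refl (Or.inl h)), h, Equiv.swap_apply_left]

theorem Tw_ksw (g : W → Fin 5) (c d : Fin 5) (u : W) : Tw (ksw H g c d u) c d = Tw g c d := by
  ext x
  by_cases hx : Cn H (Tw g c d) u x
  · have h1 := cn_mem hx
    constructor
    · intro _
      exact h1
    · intro _
      change ksw H g c d u x = c ∨ ksw H g c d u x = d
      rw [ksw_pos hx]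
      rcases h1 with h | h
      · right
        rw [h, Equiv.swap_apply_left]
      · left
        rw [h, Equiv.swap_apply_right]
  · change (ksw H g c d u x = c ∨ ksw H g c d u x = d) ↔ (g x = c ∨ g x = d)
    rw [ksw_neg hx]

theorem ksw_invol (g : W → Fin 5) (c d : Fin 5) (u : W) :
    ksw H (ksw H g c d u) c d u = g := by
  funext x
  by_cases hx : Cn H (Tw g c d) u x
  · rw [ksw_pos (by rw [Tw_ksw]; exact hx), ksw_pos hx, Equiv.swap_apply_self]
  · rw [ksw_neg (by rw [Tw_ksw]; exact hx), ksw_neg hx]

theorem Tw_ksw_other (g : W → Fin 5) (c d : Fin 5) (u : W) (p q : Fin 5) (h1 : p ≠ c) (h2 : p ≠ d)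
    (h3 : q ≠ c) (h4 : q ≠ d) : Tw (ksw H g c d u) p q = Tw g p q := by
  ext x
  change (ksw H g c d u x = p ∨ ksw H g c d u x = q) ↔ (g x = p ∨ g x = q)
  by_cases hx : Cn H (Tw g c d) u x
  · rw [ksw_pos hx]
    rcases cn_mem hx with h | h
    · rw [h, Equiv.swap_apply_left]
      constructor
      · rintro (h | h)
        · exact absurd h.symm h2
        · exact absurd h.symm h4
      · rintro (h | h)
        · exact absurd h.symm h1
        · exact absurd h.symm h3
    · rw [h, Equiv.swap_apply_right]
      constructor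
      · rintro (h | h)
        · exact absurd h.symm h1
        · exact absurd h.symm h3
      · rintro (h | h)
        · exact absurd h.symm h2
        · exact absurd h.symm h4
  · rw [ksw_neg hx]

theorem ksw_proper {g : W → Fin 5} (hg : Proper H g) (c d : Fin 5) (u : W) :
    Proper H (ksw H g c d u) := by
  have hone : ∀ p q, H.Adj p q → Cn H (Tw g c d) u p → ¬ Cn H (Tw g c d) u q →
      ksw H g c d u p ≠ ksw H g c d u q := by
    intro p q hpq h1 h2 he
    have h3 : q ∉ Tw g c d := fun h => h2 (h1.trans (Cn.adj hpq (cn_mem h1) h))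
    have h4 := cn_mem h1
    rw [ksw_pos h1, ksw_neg h2] at he
    apply h3
    rcases h4 with h | h
    · rw [h, Equiv.swap_apply_left] at he
      exact Or.inr he.symm
    · rw [h, Equiv.swap_apply_right] at he
      exact Or.inl he.symm
  intro p q hpq
  by_cases h1 : Cn H (Tw g c d) u p
  · by_cases h2 : Cn H (Tw g c d) u q
    · rw [ksw_pos h1, ksw_pos h2]
      exact fun h => hg p q hpq (Equiv.injective _ h)
    · exact hone p q hpq h1 h2
  · by_cases h2 : Cn H (Tw g c d) u q
    · exact (hone q p hpq.symm h2 h1).symm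
    · rw [ksw_neg h1, ksw_neg h2]
      exact hg p q hpq

end

section

variable {V : Type} (G : SimpleGraph V) (v : V) {n : ℕ} (a : Fin n → {x : V // x ≠ v})

/-- the neighbours number `i` and `j` of `v` are joined by a chain of their two colours -/
def Con (g : {x : V // x ≠ v} → Fin 5) (i j : Fin n) : Prop :=
  Cn (G.comap (Subtype.val : {x : V // x ≠ v} → V)) (Tw g (g (a i)) (g (a j))) (a i) (a j)

theorem Con.symm {g : {x : V // x ≠ v} → Fin 5} {i j : Fin n} (h : Con G v a g i j) :
    Con G v a g j i := by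
  unfold Con at h ⊢
  rw [Tw_comm]
  exact Cn.symm h

theorem con_lift {g : {x : V // x ≠ v} → Fin 5} {i j : Fin n} (h : Con G v a g i j) :
    Cn G (Subtype.val '' Tw g (g (a i)) (g (a j))) (a i).1 (a j).1 := by
  refine Cn.transport Subtype.val ?_ ?_ h
  · intro x y hx hy hxy
    exact Cn.adj hxy ⟨x, hx, rfl⟩ ⟨y, hy, rfl⟩
  · intro x hx
    exact ⟨x, hx, rfl⟩

/-- chains of disjoint pairs of colours are disjoint -/
theorem tw_disj (g : {x : V // x ≠ v} → Fin 5) (hinj : Function.Injective (fun k => g (a k)))
    {i j k l : Fin n} (h1 : i ≠ k) (h2 : i ≠ l) (h3 : j ≠ k) (h4 : j ≠ l) :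
    Disjoint (Subtype.val '' Tw g (g (a i)) (g (a j)) : Set V)
      (Subtype.val '' Tw g (g (a k)) (g (a l))) := by
  rw [Set.disjoint_left]
  rintro z ⟨x, hx, hxz⟩ ⟨x', hx', hxz'⟩
  have he : x = x' := Subtype.ext (hxz.trans hxz'.symm)
  subst he
  rcases hx with h | h <;> rcases hx' with h' | h'
  · exact h1 (hinj (h.symm.trans h'))
  · exact h2 (hinj (h.symm.trans h'))
  · exact h3 (hinj (h.symm.trans h'))
  · exact h4 (hinj (h.symm.trans h'))

/-- an edge at `v` is disjoint from a chain of two other colours -/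
theorem edge_disj (g : {x : V // x ≠ v} → Fin 5) (hinj : Function.Injective (fun k => g (a k)))
    {i k l : Fin n} (h1 : i ≠ k) (h2 : i ≠ l) :
    Disjoint ({v, (a i).1} : Set V) (Subtype.val '' Tw g (g (a k)) (g (a l))) := by
  rw [Set.disjoint_left]
  rintro z (hz | hz) ⟨x, hx, hxz⟩
  · exact x.2 (hxz.trans hz)
  · have hz' : z = (a i).1 := hz
    have hx' : x = a i := Subtype.ext (hxz.trans hz')
    subst hx'
    rcases hx with h | h
    · exact h1 (hinj h)
    · exact h2 (hinj h)

/-- no four neighbours of `v` are joined pairwise -/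
theorem no_K4 (ha : ∀ k, G.Adj v (a k).1) (hW : ¬ WK V G) (g : {x : V // x ≠ v} → Fin 5)
    (hinj : Function.Injective (fun k => g (a k))) (p : Fin 4 → Fin n)
    (hp : Function.Injective p) : ¬ (∀ i j : Fin 4, i < j → Con G v a g (p i) (p j)) := by
  classical
  intro hc
  apply hW
  let r : Fin 5 → Fin 4 := fun i => ⟨i.1 - 1, by omega⟩
  have hr : ∀ i j : Fin 5, i ≠ 0 → j ≠ 0 → i ≠ j → r i ≠ r j := by decide
  have hr' : ∀ i j : Fin 5, i ≠ 0 → i < j → r i < r j := by decide
  have hpr : ∀ i j : Fin 5, i ≠ 0 → j ≠ 0 → i ≠ j → p (r i) ≠ p (r j) := fun i j h1 h2 h3 h4 =>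
    hr i j h1 h2 h3 (hp h4)
  refine ⟨fun i => if i = 0 then v else (a (p (r i))).1,
    fun i j => if i = 0 then {v, (a (p (r j))).1} else
      Subtype.val '' Tw g (g (a (p (r i)))) (g (a (p (r j)))), ?_, ?_⟩
  · intro i j hij
    have hj : j ≠ 0 := by
      rintro rfl
      exact absurd hij (Fin.not_lt_zero i)
    simp only [if_neg hj]
    by_cases hi : i = 0
    · simp only [if_pos hi]
      exact Cn.adj (ha _) (by simp) (by simp)
    · simp only [if_neg hi]
      exact con_lift G v a (hc _ _ (hr' i j hi hij))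
  · intro i j k l hij hkl h1 h2 h3 h4
    have hj : j ≠ 0 := by
      rintro rfl
      exact absurd hij (Fin.not_lt_zero i)
    have hl : l ≠ 0 := by
      rintro rfl
      exact absurd hkl (Fin.not_lt_zero k)
    by_cases hi : i = 0
    · have hk : k ≠ 0 := fun h => h1 (hi.trans h.symm)
      simp only [if_pos hi, if_neg hk]
      exact edge_disj v a g hinj (hpr j k hj hk h3) (hpr j l hj hl h4)
    · by_cases hk : k = 0
      · simp only [if_pos hk, if_neg hi]
        exact (edge_disj v a g hinj (hpr l i hl hi h2.symm) (hpr l j hl hj h4.symm)).symm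
      · simp only [if_neg hk, if_neg hi]
        exact tw_disj v a g hinj (hpr i k hi hk h1) (hpr i l hi hl h2) (hpr j k hj hk h3)
          (hpr j l hj hl h4)

/-- no two neighbours of `v` are joined to the same three others -/
theorem no_K23 (ha : ∀ k, G.Adj v (a k).1) (hW : ¬ WB V G) (g : {x : V // x ≠ v} → Fin 5)
    (hinj : Function.Injective (fun k => g (a k))) (s t : Fin n) (hst : s ≠ t)
    (p : Fin 3 → Fin n) (hp : Function.Injective p) (hs : ∀ i, p i ≠ s) (ht : ∀ i, p i ≠ t) :
    ¬ ((∀ i, Con G v a g s (p i)) ∧ (∀ i, Con G v a g t (p i))) := by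
  classical
  rintro ⟨hc, hd⟩
  apply hW
  refine ⟨fun i => if i = 0 then v else if i = 1 then (a s).1 else (a t).1,
    fun i => (a (p i)).1,
    fun i j => if i = 0 then {v, (a (p j)).1} else if i = 1 then
      Subtype.val '' Tw g (g (a s)) (g (a (p j))) else
      Subtype.val '' Tw g (g (a t)) (g (a (p j))), ?_, ?_⟩
  · intro i j
    by_cases h0 : i = 0
    · simp only [if_pos h0]
      exact Cn.adj (ha _) (by simp) (by simp)
    · simp only [if_neg h0]
      by_cases h1 : i = 1
      · simp only [if_pos h1]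
        exact con_lift G v a (hc j)
      · simp only [if_neg h1]
        exact con_lift G v a (hd j)
  · intro i j k l hik hjl
    have hpjl : p j ≠ p l := fun h => hjl (hp h)
    by_cases h0 : i = 0
    · have k0 : k ≠ 0 := fun h => hik (h0.trans h.symm)
      simp only [if_pos h0, if_neg k0]
      by_cases k1 : k = 1
      · simp only [if_pos k1]
        exact edge_disj v a g hinj (hs j) hpjl
      · simp only [if_neg k1]
        exact edge_disj v a g hinj (ht j) hpjl
    · simp only [if_neg h0]
      by_cases k0 : k = 0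
      · simp only [if_pos k0]
        by_cases h1 : i = 1
        · simp only [if_pos h1]
          exact (edge_disj v a g hinj (hs l) hpjl.symm).symm
        · simp only [if_neg h1]
          exact (edge_disj v a g hinj (ht l) hpjl.symm).symm
      · simp only [if_neg k0]
        by_cases h1 : i = 1
        · have k1 : k ≠ 1 := fun h => hik (h1.trans h.symm)
          simp only [if_pos h1, if_neg k1]
          exact tw_disj v a g hinj hst (hs l).symm (ht j) hpjl
        · have k1 : k = 1 := by
            have : ∀ i k : Fin 3, i ≠ 0 → i ≠ 1 → k ≠ 0 → i ≠ k → k = 1 := by decide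
            exact this i k h0 h1 k0 hik
          simp only [if_neg h1, if_pos k1]
          exact tw_disj v a g hinj hst.symm (ht l).symm (hs j) hpjl

end

end Pool.Agent.R814.BL
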