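import Pool.Agent.R814.BL.Kempe
import Pool.Agent.R814.BL.Above
import Pool.Agent.Y865.RF.Fin

/-!
Values of the chromatic polynomial near five, with the sharp Kempe inequalities.
-/

set_option autoImplicit false
set_option linter.unusedSectionVars false

namespace Pool.Agent.R814.BL

open Polynomial Pool.Agent.H207R2.BL Pool.Agent.Y865.RF

theorem cl_deg {V : Type} [Finite V] [Nonempty V] (G : SimpleGraph V) (hG : Cl V G) :
    ∃ v, (G.neighborSet v).ncard ≤ 5 := t_deg V G hG.1

theorem cl_pos {V : Type} [Finite V] (G : SimpleGraph V) (hG : Cl V G) : 0 < (chr G).eval 5 :=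
  five_pos t_kempe t_deg G hG.1

theorem eval_five {V : Type} [Finite V] (G : SimpleGraph V) :
    (chr G).eval 5 = (Nat.card {g : V → Fin 5 // Proper G g} : ℝ) := by
  have h1 := chr_eval_nat G 5
  rw [Nat.cast_ofNat] at h1
  exact h1

/-- the inequality used in all inductions -/
theorem ratio {V : Type} [Finite V] (G : SimpleGraph V) (hG : Cl V G) (v : V)
    (hv : (G.neighborSet v).ncard ≤ 5) :
    (20 - 3 * ((G.neighborSet v).ncard : ℝ)) *
      (chr (G.comap (Subtype.val : {x : V // x ≠ v} → V))).eval 5 ≤ 6 * (chr G).eval 5 := by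
  have hH5 := cl_pos _ (cl_mc.vertex V G v hG)
  have hG5 := cl_pos G hG
  rcases (by omega : (G.neighborSet v).ncard = 5 ∨ (G.neighborSet v).ncard = 4 ∨
    (G.neighborSet v).ncard ≤ 3) with h5 | h4 | h3
  · have h := kempe_five G v hG h5
    rw [h5]
    have e1 := eval_five G
    have e2 := eval_five (G.comap (Subtype.val : {x : V // x ≠ v} → V))
    have h' : (8 : ℝ) * (chr (G.comap (Subtype.val : {x : V // x ≠ v} → V))).eval 5 ≤
        9 * (chr G).eval 5 := by
      rw [e1, e2]
      exact_mod_cast h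
    push_cast
    linarith
  · have h := kempe_four G v hG h4
    rw [h4]
    have e1 := eval_five G
    have e2 := eval_five (G.comap (Subtype.val : {x : V // x ≠ v} → V))
    have h' : (4 : ℝ) * (chr (G.comap (Subtype.val : {x : V // x ≠ v} → V))).eval 5 ≤
        3 * (chr G).eval 5 := by
      rw [e1, e2]
      exact_mod_cast h
    push_cast
    linarith
  · obtain ⟨D, hD, hGD⟩ := exp_at Cl cl_mc V G v hG (fun p => 0 ≤ p.eval 5)
      (by simp) (by
        intro a b ha hb
        rw [eval_add]
        exact add_nonneg ha hb)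
      (by
        intro w M hM
        exact (cl_pos M hM).le)
    have e5 : (chr G).eval 5 = (5 - ((G.neighborSet v).ncard : ℝ)) *
        (chr (G.comap (Subtype.val : {x : V // x ≠ v} → V))).eval 5 + D.eval 5 := by
      rw [hGD, eval_add, eval_mul, eval_sub, eval_X, eval_C]
    have hd3 : ((G.neighborSet v).ncard : ℝ) ≤ 3 := by exact_mod_cast h3
    have hd0 : (0 : ℝ) ≤ ((G.neighborSet v).ncard : ℝ) := Nat.cast_nonneg _
    nlinarith

theorem real_main' (δ : ℝ) (hδ : 0 ≤ δ) :
    ∀ (n : ℕ) (V : Type) [Finite V] (G : SimpleGraph V), Nat.card V = n → Cl V G →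
      3 * n * δ ≤ 5 →
        (1 - 3 / 5 * n * δ) * (chr G).eval 5 ≤ (chr G).eval (5 - δ) ∧
        (chr G).eval (5 - δ) ≤ (chr G).eval 5 := by
  intro n
  induction n using Nat.strong_induction_on with
  | _ n ih =>
    intro V _ G hn hG hnδ
    rcases isEmpty_or_nonempty V with he | hne
    · rw [chr_empty]
      have h0 : n = 0 := by
        rw [← hn]
        exact Nat.card_of_isEmpty
      subst h0
      simp
    · obtain ⟨v, hv⟩ := cl_deg G hG
      have hc := card_sub v
      have hn1 : 1 ≤ n := by omega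
      set H : SimpleGraph {x : V // x ≠ v} := G.comap Subtype.val with hH
      have hHW : Cl _ H := cl_mc.vertex V G v hG
      have hH5 := cl_pos H hHW
      have hG5 := cl_pos G hG
      have hcast1 : ((n - 1 : ℕ) : ℝ) = (n : ℝ) - 1 := by
        rw [Nat.cast_sub hn1, Nat.cast_one]
      have hn1' : (1 : ℝ) ≤ n := by exact_mod_cast hn1
      obtain ⟨hH1, hH2⟩ := ih (n - 1) (by omega) _ H (by omega) hHW (by
        rw [hcast1]
        nlinarith)
      rw [hcast1] at hH1
      obtain ⟨D, hD, hGD⟩ := exp_at Cl cl_mc V G v hG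
        (fun p => 0 ≤ p.eval 5 ∧ (1 - 3 / 5 * ((n : ℝ) - 2) * δ) * p.eval 5 ≤ p.eval (5 - δ) ∧
          p.eval (5 - δ) ≤ p.eval 5) (by simp)
        (by
          rintro a b ⟨ha, h1, h2⟩ ⟨hb, h3, h4⟩
          refine ⟨by rw [eval_add]; exact add_nonneg ha hb, ?_⟩
          rw [eval_add, eval_add]
          constructor <;> linarith)
        (by
          intro w M hM
          have hc2 := card_sub w
          have hn2 : 2 ≤ n := by omega
          have hcast2 : ((n - 2 : ℕ) : ℝ) = (n : ℝ) - 2 := by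
            rw [Nat.cast_sub hn2, Nat.cast_ofNat]
          have h1 := ih (n - 2) (by omega) _ M (by omega) hM (by
            rw [hcast2]
            nlinarith)
          rw [hcast2] at h1
          exact ⟨(cl_pos M hM).le, h1⟩)
      obtain ⟨hD5, hD1, hD2⟩ := hD
      have hr := ratio G hG v hv
      rw [← hH] at hr
      set d := (G.neighborSet v).ncard with hdd
      have e5 : (chr G).eval 5 = (5 - d) * (chr H).eval 5 + D.eval 5 := by
        rw [hGD, eval_add, eval_mul, eval_sub, eval_X, eval_C]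
      have eq : (chr G).eval (5 - δ) = (5 - δ - d) * (chr H).eval (5 - δ) + D.eval (5 - δ) := by
        rw [hGD, eval_add, eval_mul, eval_sub, eval_X, eval_C]
      have hd5 : (d : ℝ) ≤ 5 := by exact_mod_cast hv
      have h5 : 0 ≤ 1 - 3 / 5 * ((n : ℝ) - 1) * δ := by nlinarith
      have h6 : 0 ≤ (chr H).eval (5 - δ) := le_trans (mul_nonneg h5 hH5.le) hH1
      constructor
      · have k1 : (5 - (d : ℝ)) * ((1 - 3 / 5 * ((n : ℝ) - 1) * δ) * (chr H).eval 5) ≤
            (5 - d) * (chr H).eval (5 - δ) := mul_le_mul_of_nonneg_left hH1 (by linarith)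
        have k2 : δ * (chr H).eval (5 - δ) ≤ δ * (chr H).eval 5 :=
          mul_le_mul_of_nonneg_left hH2 hδ
        have k3 : δ * ((20 - 3 * (d : ℝ)) * (chr H).eval 5) ≤ δ * (6 * (chr G).eval 5) :=
          mul_le_mul_of_nonneg_left hr hδ
        have k4 : D.eval 5 = (chr G).eval 5 - (5 - d) * (chr H).eval 5 := by linarith
        rw [k4] at hD1
        rw [eq]
        nlinarith
      · have k1 : (5 - (d : ℝ)) * (chr H).eval (5 - δ) ≤ (5 - d) * (chr H).eval 5 :=
          mul_le_mul_of_nonneg_left hH2 (by linarith)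
        have k2 : 0 ≤ δ * (chr H).eval (5 - δ) := mul_nonneg hδ h6
        rw [eq, e5]
        nlinarith

/-- the class of graphs with a small bound for the minors of minimum degree five -/
theorem above_mc (m : ℕ) : MinorClosed (fun V G => Cl V G ∧ MinorDegAbove m 4 G) where
  edge _ G H h hG := ⟨cl_mc.edge _ G H h hG.1, minorAbove_edge m 4 G H h hG.2⟩
  vertex _ G v hG := ⟨cl_mc.vertex _ G v hG.1, minorAbove_vertex m 4 G v hG.2⟩
  contr _ G u v h hG := ⟨cl_mc.contr _ G u v h hG.1, minorAbove_contr m 4 G u v h hG.2⟩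

theorem above_pos (m : ℕ) (q : ℝ) (hq4 : 4 < q) (hq5 : q ≤ 5) (hm : 3 * m * (5 - q) < 5) :
    ∀ (n : ℕ) (V : Type) [Finite V] (G : SimpleGraph V), Nat.card V = n → Cl V G →
      MinorDegAbove m 4 G → 0 < (chr G).eval q := by
  intro n
  induction n using Nat.strong_induction_on with
  | _ n ih =>
    intro V _ G hn hG hA
    by_cases hnm : n ≤ m
    · have hnm' : (n : ℝ) ≤ m := by exact_mod_cast hnm
      have h1 : 3 * (n : ℝ) * (5 - q) < 5 := by nlinarith
      have h2 := (real_main' (5 - q) (by linarith) n V G hn hG h1.le).1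
      rw [show (5 : ℝ) - (5 - q) = q by ring] at h2
      have h3 : 0 < 1 - 3 / 5 * (n : ℝ) * (5 - q) := by nlinarith
      exact lt_of_lt_of_le (mul_pos h3 (cl_pos G hG)) h2
    · obtain ⟨v, hv⟩ := minorAbove_exists m 4 (by omega) G hA
      have hc := card_sub v
      have hH := (above_mc m).vertex V G v ⟨hG, hA⟩
      have hHp := ih (n - 1) (by omega) _ _ (by omega) hH.1 hH.2
      obtain ⟨D, hD, hGD⟩ := exp_at (fun V G => Cl V G ∧ MinorDegAbove m 4 G) (above_mc m) V G v
        ⟨hG, hA⟩ (fun p => 0 ≤ p.eval q) (by simp)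
        (by
          intro a b ha hb
          rw [eval_add]
          exact add_nonneg ha hb)
        (by
          intro w M hM
          have hc2 := card_sub w
          exact (ih (n - 2) (by omega) _ M (by omega) hM.1 hM.2).le)
      rw [hGD, eval_add, eval_mul, eval_sub, eval_X, eval_C]
      have hd4 : ((G.neighborSet v).ncard : ℝ) ≤ 4 := by exact_mod_cast hv
      have := mul_pos (by linarith : 0 < q - ((G.neighborSet v).ncard : ℝ)) hHp
      linarith

theorem cpx_main' (z : ℂ) (x : ℝ) (hx1 : 1 ≤ x) (hx2 : 5 + 6 * ‖z - 5‖ * x ≤ 5 * x ^ 2) :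
    ∀ (n : ℕ) (V : Type) [Finite V] (G : SimpleGraph V), Nat.card V = n → Cl V G →
      ‖aeval z (chr G) - (((chr G).eval 5 : ℝ) : ℂ)‖ ≤ (x ^ n - 1) * (chr G).eval 5 := by
  have hδ : 0 ≤ ‖z - 5‖ := norm_nonneg _
  have hx0 : 0 < x := by linarith
  intro n
  induction n using Nat.strong_induction_on with
  | _ n ih =>
    intro V _ G hn hG
    rcases isEmpty_or_nonempty V with he | hne
    · rw [chr_empty]
      have h0 : n = 0 := by
        rw [← hn]
        exact Nat.card_of_isEmpty
      subst h0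
      simp
    · obtain ⟨v, hv⟩ := cl_deg G hG
      have hc := card_sub v
      have hn1 : 1 ≤ n := by omega
      set H : SimpleGraph {x : V // x ≠ v} := G.comap Subtype.val with hH
      have hHW : Cl _ H := cl_mc.vertex V G v hG
      have hH5 := cl_pos H hHW
      have hHz := ih (n - 1) (by omega) _ H (by omega) hHW
      obtain ⟨y, hy⟩ : ∃ y : ℝ, y = x ^ n / x ^ 2 := ⟨_, rfl⟩
      have hy0 : 0 < y := by
        rw [hy]
        positivity
      have hyn : x ^ n = y * x ^ 2 := by
        rw [hy]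
        field_simp
      have hyn1 : x ^ (n - 1) = y * x := by
        have h1 : x ^ n = x ^ (n - 1) * x := by
          rw [← pow_succ]
          congr 1
          omega
        rw [hyn] at h1
        have h2 : x * (x ^ (n - 1) - y * x) = 0 := by
          linear_combination -h1
        rcases mul_eq_zero.1 h2 with h3 | h3
        · exact absurd h3 hx0.ne'
        · linarith
      obtain ⟨D, hD, hGD⟩ := exp_at Cl cl_mc V G v hG
        (fun p => 0 ≤ p.eval 5 ∧ ‖aeval z p - ((p.eval 5 : ℝ) : ℂ)‖ ≤ (y - 1) * p.eval 5)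
        (by simp)
        (by
          rintro a b ⟨ha, ha'⟩ ⟨hb, hb'⟩
          refine ⟨by rw [eval_add]; exact add_nonneg ha hb, ?_⟩
          rw [map_add, eval_add]
          push_cast
          have : aeval z a + aeval z b - (((a.eval 5 : ℝ) : ℂ) + ((b.eval 5 : ℝ) : ℂ)) =
              (aeval z a - ((a.eval 5 : ℝ) : ℂ)) + (aeval z b - ((b.eval 5 : ℝ) : ℂ)) := by ring
          rw [this]
          refine (norm_add_le _ _).trans ?_
          rw [mul_add]
          exact add_le_add ha' hb')
        (by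
          intro w M hM
          have hc2 := card_sub w
          have h1 := ih (n - 2) (by omega) _ M (by omega) hM
          have h2 : x ^ (n - 2) = y := by
            have h3 : x ^ n = x ^ (n - 2) * x ^ 2 := by
              rw [← pow_add]
              congr 1
              omega
            rw [hyn] at h3
            have h4 : x ^ 2 * (x ^ (n - 2) - y) = 0 := by
              linear_combination -h3
            rcases mul_eq_zero.1 h4 with h5 | h5
            · exact absurd h5 (pow_pos hx0 2).ne'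
            · linarith
          rw [h2] at h1
          exact ⟨(cl_pos M hM).le, h1⟩)
      obtain ⟨hD5, hDz⟩ := hD
      have hr := ratio G hG v hv
      rw [← hH] at hr
      set d := (G.neighborSet v).ncard with hdd
      have hd5 : (d : ℝ) ≤ 5 := by exact_mod_cast hv
      have e5 : (chr G).eval 5 = (5 - d) * (chr H).eval 5 + D.eval 5 := by
        rw [hGD, eval_add, eval_mul, eval_sub, eval_X, eval_C]
      have ez : aeval z (chr G) = (z - d) * aeval z (chr H) + aeval z D := by
        rw [hGD, map_add, map_mul, map_sub, aeval_X, aeval_C, map_natCast]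
      have hHn : ‖aeval z (chr H)‖ ≤ x ^ (n - 1) * (chr H).eval 5 := by
        have h1 : aeval z (chr H) = (aeval z (chr H) - (((chr H).eval 5 : ℝ) : ℂ)) +
            (((chr H).eval 5 : ℝ) : ℂ) := by ring
        rw [h1]
        refine (norm_add_le _ _).trans ?_
        rw [Complex.norm_real, Real.norm_of_nonneg hH5.le]
        linarith
      have split : aeval z (chr G) - (((chr G).eval 5 : ℝ) : ℂ) =
          (z - 5) * aeval z (chr H) +
            ((5 : ℂ) - d) * (aeval z (chr H) - (((chr H).eval 5 : ℝ) : ℂ)) +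
            (aeval z D - ((D.eval 5 : ℝ) : ℂ)) := by
        rw [ez, e5]
        push_cast
        ring
      have hb1 : ‖(z - 5) * aeval z (chr H)‖ ≤ ‖z - 5‖ * (x ^ (n - 1) * (chr H).eval 5) := by
        rw [norm_mul]
        exact mul_le_mul_of_nonneg_left hHn hδ
      have hnorm : ‖((5 : ℂ) - d)‖ = 5 - d := by
        have h1 : ((5 : ℂ) - d) = (((5 : ℝ) - d : ℝ) : ℂ) := by push_cast; ring
        have h2 : (0 : ℝ) ≤ 5 - d := by linarith
        rw [h1, Complex.norm_real, Real.norm_of_nonneg h2]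
      have hb2 : ‖((5 : ℂ) - d) * (aeval z (chr H) - (((chr H).eval 5 : ℝ) : ℂ))‖ ≤
          (5 - d) * ((x ^ (n - 1) - 1) * (chr H).eval 5) := by
        rw [norm_mul, hnorm]
        exact mul_le_mul_of_nonneg_left hHz (by linarith)
      have hsum : ‖aeval z (chr G) - (((chr G).eval 5 : ℝ) : ℂ)‖ ≤
          ‖z - 5‖ * (x ^ (n - 1) * (chr H).eval 5) +
          (5 - d) * ((x ^ (n - 1) - 1) * (chr H).eval 5) +
          (y - 1) * D.eval 5 := by
        rw [split]
        refine (norm_add_le _ _).trans (add_le_add ((norm_add_le _ _).trans (add_le_add hb1 hb2)) hDz)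
      refine hsum.trans ?_
      have k4 : D.eval 5 = (chr G).eval 5 - (5 - d) * (chr H).eval 5 := by linarith
      rw [k4, hyn, hyn1]
      -- divide by `y`
      have key : (‖z - 5‖ * x + (5 - d) * (x - 1)) * (chr H).eval 5 ≤
          (x ^ 2 - 1) * (chr G).eval 5 := by
        have j1 : 6 * (‖z - 5‖ * x + (5 - d) * (x - 1)) ≤ (x ^ 2 - 1) * (20 - 3 * (d : ℝ)) := by
          have j2 : 0 ≤ (5 - (d : ℝ)) * (x - 1) * (x - 1) :=
            mul_nonneg (mul_nonneg (by linarith) (by linarith)) (by linarith)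
          nlinarith
        have j3 : 6 * (‖z - 5‖ * x + (5 - d) * (x - 1)) * (chr H).eval 5 ≤
            (x ^ 2 - 1) * (20 - 3 * (d : ℝ)) * (chr H).eval 5 :=
          mul_le_mul_of_nonneg_right j1 hH5.le
        have j4 : 0 ≤ x ^ 2 - 1 := by nlinarith
        have j5 : (x ^ 2 - 1) * ((20 - 3 * (d : ℝ)) * (chr H).eval 5) ≤
            (x ^ 2 - 1) * (6 * (chr G).eval 5) := mul_le_mul_of_nonneg_left hr j4
        linarith
      have key2 := mul_le_mul_of_nonneg_left key hy0.le
      nlinarith

theorem exp_cond' (δ : ℝ) (hδ : 0 ≤ δ) :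
    1 ≤ Real.exp (3 / 5 * δ) ∧
      5 + 6 * δ * Real.exp (3 / 5 * δ) ≤ 5 * Real.exp (3 / 5 * δ) ^ 2 := by
  have h0 : 0 ≤ 3 / 5 * δ := by positivity
  have h1 := (exp_cond (3 / 5 * δ) h0)
  constructor
  · linarith [h1.1]
  · linarith [h1.2]

theorem cpx_ne' {V : Type} [Finite V] (G : SimpleGraph V) (hG : Cl V G) (z : ℂ)
    (hz : 3 * Nat.card V * ‖z - 5‖ < 5 * Real.log 2) : aeval z (chr G) ≠ 0 := by
  intro h0
  have hδ : 0 ≤ ‖z - 5‖ := norm_nonneg _
  obtain ⟨h1, h2⟩ := exp_cond' ‖z - 5‖ hδ
  have h3 := cpx_main' z (Real.exp (3 / 5 * ‖z - 5‖)) h1 h2 _ V G rfl hG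
  have h5 := cl_pos G hG
  rw [h0, zero_sub, norm_neg, Complex.norm_real, Real.norm_of_nonneg h5.le] at h3
  have h6 : Real.exp (3 / 5 * ‖z - 5‖) ^ (Nat.card V) < 2 := by
    rw [← Real.exp_nat_mul]
    calc Real.exp (Nat.card V * (3 / 5 * ‖z - 5‖)) < Real.exp (Real.log 2) := by
          apply Real.exp_lt_exp.2
          linarith
      _ = 2 := Real.exp_log (by norm_num)
  nlinarith

theorem final' {V : Type} [Finite V] (G : SimpleGraph V) (hG : Cl V G) (p : ℝ[X])
    (hp : ∀ k : ℕ, p.eval (k : ℝ) = (Nat.card (G.Coloring (Fin k)) : ℝ)) :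
    (∀ v : V, (G.neighborSet v).ncard = 5 →
      8 * Nat.card ((G.comap (Subtype.val : {x : V // x ≠ v} → V)).Coloring (Fin 5)) ≤
        9 * Nat.card (G.Coloring (Fin 5))) ∧
    (∀ v : V, (G.neighborSet v).ncard = 4 →
      4 * Nat.card ((G.comap (Subtype.val : {x : V // x ≠ v} → V)).Coloring (Fin 5)) ≤
        3 * Nat.card (G.Coloring (Fin 5))) ∧
    (∀ m : ℕ, MinorDegAbove m 4 G → ∀ q : ℝ, 4 < q → 3 * m * (5 - q) < 5 → 0 < p.eval q) ∧
    (∀ q : ℝ, 5 - 5 / (3 * (Nat.card V : ℝ)) < q → 0 < p.eval q) ∧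
    (∀ q : ℝ, 5 - 5 / (3 * (Nat.card V : ℝ)) ≤ q → q ≤ 5 →
      (1 - 3 / 5 * Nat.card V * (5 - q)) * p.eval 5 ≤ p.eval q ∧ p.eval q ≤ p.eval 5) ∧
    (∀ z : ℂ, 3 * Nat.card V * ‖z - 5‖ < 5 * Real.log 2 → aeval z p ≠ 0) := by
  have hpc : p = chr G := eq_chr hp
  subst hpc
  have hbig : ∀ q : ℝ, 5 < q → 0 < (chr G).eval q := fun q h =>
    minor_pos (fun V G => ¬ WK V G) mc 5 (fun V _ _ G hG => t_deg V G hG) q
      (by exact_mod_cast h) G hG.1
  have key : ∀ q : ℝ, 5 - 5 / (3 * (Nat.card V : ℝ)) ≤ q → q ≤ 5 →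
      (1 - 3 / 5 * Nat.card V * (5 - q)) * (chr G).eval 5 ≤ (chr G).eval q ∧
        (chr G).eval q ≤ (chr G).eval 5 := by
    intro q h1 h2
    have h3 := real_main' (5 - q) (by linarith) _ V G rfl hG (by
      rcases Nat.eq_zero_or_pos (Nat.card V) with h | h
      · rw [h]
        norm_num
      · have hc : (0 : ℝ) < Nat.card V := by exact_mod_cast h
        have h4 : 5 - q ≤ 5 / (3 * (Nat.card V : ℝ)) := by linarith
        rw [le_div_iff₀ (by linarith)] at h4
        linarith)
    have h5 : (5 : ℝ) - (5 - q) = q := by ring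
    rw [h5] at h3
    exact h3
  refine ⟨?_, ?_, ?_, ?_, key, fun z hz => cpx_ne' G hG z hz⟩
  · intro v hv
    have h := kempe_five G v hG hv
    rw [card_colorings, card_colorings]
    exact h
  · intro v hv
    have h := kempe_four G v hG hv
    rw [card_colorings, card_colorings]
    exact h
  · intro m hm q hq4 hq
    rcases le_or_gt q 5 with h | h
    · exact above_pos m q hq4 h hq _ V G rfl hG hm
    · exact hbig q h
  · intro q hq
    have h5 := cl_pos G hG
    rcases lt_trichotomy q 5 with h | h | h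
    · have h1 := (key q hq.le h.le).1
      have h2 : 0 < 1 - 3 / 5 * Nat.card V * (5 - q) := by
        rcases Nat.eq_zero_or_pos (Nat.card V) with h0 | h0
        · rw [h0]
          simp
        · have hc : (0 : ℝ) < Nat.card V := by exact_mod_cast h0
          have h4 : 5 - q < 5 / (3 * (Nat.card V : ℝ)) := by linarith
          rw [lt_div_iff₀ (by linarith)] at h4
          linarith
      have h3 := mul_pos h2 h5
      linarith
    · rw [h]
      exact h5
    · exact hbig q h

end Pool.Agent.R814.BL
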