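import Pool.Agent.R814.BL.Ksw

/-!
The pattern of pairs of neighbours which are not joined by chains.
-/

set_option autoImplicit false

namespace Pool.Agent.R814.BL

open Pool.Agent.H207R2.BL Pool.Agent.Y865.RF

theorem patb : ∀ b01 b02 b03 b04 b12 b13 b14 b23 b24 b34 : Bool,
    ((b01 && b02 && b03 && b12 && b13 && b23) ||
    (b01 && b02 && b04 && b12 && b14 && b24) ||
    (b01 && b03 && b04 && b13 && b14 && b34) ||
    (b02 && b03 && b04 && b23 && b24 && b34) ||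
    (b12 && b13 && b14 && b23 && b24 && b34) ||
    (b02 && b03 && b04 && b12 && b13 && b14) ||
    (b01 && b03 && b04 && b12 && b23 && b24) ||
    (b01 && b02 && b04 && b13 && b23 && b34) ||
    (b01 && b02 && b03 && b14 && b24 && b34) ||
    (b01 && b13 && b14 && b02 && b23 && b24) ||
    (b01 && b12 && b14 && b03 && b23 && b34) ||
    (b01 && b12 && b13 && b04 && b24 && b34) ||
    (b02 && b12 && b24 && b03 && b13 && b34) ||
    (b02 && b12 && b23 && b04 && b14 && b34) ||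
    (b03 && b13 && b23 && b04 && b14 && b24)) = false →
    ((!b01 && !b23) ||
    (!b01 && !b24) ||
    (!b01 && !b34) ||
    (!b02 && !b13) ||
    (!b02 && !b14) ||
    (!b02 && !b34) ||
    (!b03 && !b12) ||
    (!b03 && !b14) ||
    (!b03 && !b24) ||
    (!b04 && !b12) ||
    (!b04 && !b13) ||
    (!b04 && !b23) ||
    (!b12 && !b34) ||
    (!b13 && !b24) ||
    (!b14 && !b23)) = true ∧
    3 ≤ (if b01 = true then 0 else 1) + (if b02 = true then 0 else 1) + (if b03 = true then 0 else 1) + (if b04 = true then 0 else 1) + (if b12 = true then 0 else 1) + (if b13 = true then 0 else 1) + (if b14 = true then 0 else 1) + (if b23 = true then 0 else 1) + (if b24 = true then 0 else 1) + (if b34 = true then 0 else 1) := by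
  decide +kernel

theorem patp (p01 p02 p03 p04 p12 p13 p14 p23 p24 p34 : Prop)
    (h0 : ¬ (p01 ∧ p02 ∧ p03 ∧ p12 ∧ p13 ∧ p23))
    (h1 : ¬ (p01 ∧ p02 ∧ p04 ∧ p12 ∧ p14 ∧ p24))
    (h2 : ¬ (p01 ∧ p03 ∧ p04 ∧ p13 ∧ p14 ∧ p34))
    (h3 : ¬ (p02 ∧ p03 ∧ p04 ∧ p23 ∧ p24 ∧ p34))
    (h4 : ¬ (p12 ∧ p13 ∧ p14 ∧ p23 ∧ p24 ∧ p34))
    (h5 : ¬ (p02 ∧ p03 ∧ p04 ∧ p12 ∧ p13 ∧ p14))
    (h6 : ¬ (p01 ∧ p03 ∧ p04 ∧ p12 ∧ p23 ∧ p24))
    (h7 : ¬ (p01 ∧ p02 ∧ p04 ∧ p13 ∧ p23 ∧ p34))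
    (h8 : ¬ (p01 ∧ p02 ∧ p03 ∧ p14 ∧ p24 ∧ p34))
    (h9 : ¬ (p01 ∧ p13 ∧ p14 ∧ p02 ∧ p23 ∧ p24))
    (h10 : ¬ (p01 ∧ p12 ∧ p14 ∧ p03 ∧ p23 ∧ p34))
    (h11 : ¬ (p01 ∧ p12 ∧ p13 ∧ p04 ∧ p24 ∧ p34))
    (h12 : ¬ (p02 ∧ p12 ∧ p24 ∧ p03 ∧ p13 ∧ p34))
    (h13 : ¬ (p02 ∧ p12 ∧ p23 ∧ p04 ∧ p14 ∧ p34))
    (h14 : ¬ (p03 ∧ p13 ∧ p23 ∧ p04 ∧ p14 ∧ p24))
    [Decidable p01] [Decidable p02] [Decidable p03] [Decidable p04] [Decidable p12]
    [Decidable p13] [Decidable p14] [Decidable p23] [Decidable p24] [Decidable p34] :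
    ((¬ p01 ∧ ¬ p23) ∨
    (¬ p01 ∧ ¬ p24) ∨
    (¬ p01 ∧ ¬ p34) ∨
    (¬ p02 ∧ ¬ p13) ∨
    (¬ p02 ∧ ¬ p14) ∨
    (¬ p02 ∧ ¬ p34) ∨
    (¬ p03 ∧ ¬ p12) ∨
    (¬ p03 ∧ ¬ p14) ∨
    (¬ p03 ∧ ¬ p24) ∨
    (¬ p04 ∧ ¬ p12) ∨
    (¬ p04 ∧ ¬ p13) ∨
    (¬ p04 ∧ ¬ p23) ∨
    (¬ p12 ∧ ¬ p34) ∨
    (¬ p13 ∧ ¬ p24) ∨
    (¬ p14 ∧ ¬ p23)) ∧
    3 ≤ (if p01 then 0 else 1) + (if p02 then 0 else 1) + (if p03 then 0 else 1) + (if p04 then 0 else 1) + (if p12 then 0 else 1) + (if p13 then 0 else 1) + (if p14 then 0 else 1) + (if p23 then 0 else 1) + (if p24 then 0 else 1) + (if p34 then 0 else 1) := by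
  have h := patb (decide p01) (decide p02) (decide p03) (decide p04) (decide p12) (decide p13) (decide p14) (decide p23) (decide p24) (decide p34) (by
    rw [Bool.eq_false_iff]
    intro h
    simp only [Bool.or_eq_true, Bool.and_eq_true, decide_eq_true_eq, and_assoc, or_assoc] at h
    rcases h with h | h | h | h | h | h | h | h | h | h | h | h | h | h | h
    · exact h0 h
    · exact h1 h
    · exact h2 h
    · exact h3 h
    · exact h4 h
    · exact h5 h
    · exact h6 h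
    · exact h7 h
    · exact h8 h
    · exact h9 h
    · exact h10 h
    · exact h11 h
    · exact h12 h
    · exact h13 h
    · exact h14 h)
  obtain ⟨h', h''⟩ := h
  simp only [Bool.or_eq_true, Bool.and_eq_true, Bool.not_eq_true', decide_eq_false_iff_not, or_assoc] at h'
  simp only [decide_eq_true_eq] at h''
  exact ⟨h', h''⟩

section

variable {V : Type} (G : SimpleGraph V) (v : V) {n : ℕ} (a : Fin n → {x : V // x ≠ v})

theorem no_K4' (ha : ∀ k, G.Adj v (a k).1) (hW : ¬ WK V G) (g : {x : V // x ≠ v} → Fin 5)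
    (hinj : Function.Injective (fun k => g (a k))) (x y z w : Fin n)
    (hd : x ≠ y ∧ x ≠ z ∧ x ≠ w ∧ y ≠ z ∧ y ≠ w ∧ z ≠ w) :
    ¬ (Con G v a g x y ∧ Con G v a g x z ∧ Con G v a g x w ∧ Con G v a g y z ∧
      Con G v a g y w ∧ Con G v a g z w) := by
  rintro ⟨h1, h2, h3, h4, h5, h6⟩
  obtain ⟨d1, d2, d3, d4, d5, d6⟩ := hd
  refine no_K4 G v a ha hW g hinj ![x, y, z, w] ?_ ?_
  · intro i j hij
    fin_cases i <;> fin_cases j
    · rfl
    · exact absurd hij d1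
    · exact absurd hij d2
    · exact absurd hij d3
    · exact absurd hij d1.symm
    · rfl
    · exact absurd hij d4
    · exact absurd hij d5
    · exact absurd hij d2.symm
    · exact absurd hij d4.symm
    · rfl
    · exact absurd hij d6
    · exact absurd hij d3.symm
    · exact absurd hij d5.symm
    · exact absurd hij d6.symm
    · rfl
  · intro i j hij
    fin_cases i <;> fin_cases j
    · exact absurd hij (by decide)
    · exact h1
    · exact h2
    · exact h3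
    · exact absurd hij (by decide)
    · exact absurd hij (by decide)
    · exact h4
    · exact h5
    · exact absurd hij (by decide)
    · exact absurd hij (by decide)
    · exact absurd hij (by decide)
    · exact h6
    · exact absurd hij (by decide)
    · exact absurd hij (by decide)
    · exact absurd hij (by decide)
    · exact absurd hij (by decide)

theorem no_K23' (ha : ∀ k, G.Adj v (a k).1) (hW : ¬ WB V G) (g : {x : V // x ≠ v} → Fin 5)
    (hinj : Function.Injective (fun k => g (a k))) (s t x y z : Fin n)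
    (hd : s ≠ t ∧ x ≠ s ∧ y ≠ s ∧ z ≠ s ∧ x ≠ t ∧ y ≠ t ∧ z ≠ t ∧ x ≠ y ∧ x ≠ z ∧ y ≠ z) :
    ¬ (Con G v a g s x ∧ Con G v a g s y ∧ Con G v a g s z ∧ Con G v a g t x ∧
      Con G v a g t y ∧ Con G v a g t z) := by
  rintro ⟨h1, h2, h3, h4, h5, h6⟩
  obtain ⟨d1, d2, d3, d4, d5, d6, d7, d8, d9, d10⟩ := hd
  refine no_K23 G v a ha hW g hinj s t d1 ![x, y, z] ?_ ?_ ?_ ⟨?_, ?_⟩
  · intro i j hij
    fin_cases i <;> fin_cases j
    · rfl
    · exact absurd hij d8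
    · exact absurd hij d9
    · exact absurd hij d8.symm
    · rfl
    · exact absurd hij d10
    · exact absurd hij d9.symm
    · exact absurd hij d10.symm
    · rfl
  · intro i
    fin_cases i
    · exact d2
    · exact d3
    · exact d4
  · intro i
    fin_cases i
    · exact d5
    · exact d6
    · exact d7
  · intro i
    fin_cases i
    · exact h1
    · exact h2
    · exact h3
  · intro i
    fin_cases i
    · exact h4
    · exact h5
    · exact h6

end

section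

variable {V : Type} (G : SimpleGraph V) (v : V) (a : Fin 5 → {x : V // x ≠ v})

open Classical in
theorem pairs5 (ha : ∀ k, G.Adj v (a k).1) (hW : Cl V G) (g : {x : V // x ≠ v} → Fin 5)
    (hinj : Function.Injective (fun k => g (a k))) :
    (∃ i j k l : Fin 5, i < j ∧ k < l ∧ i < k ∧ j ≠ k ∧ j ≠ l ∧ ¬ Con G v a g i j ∧
      ¬ Con G v a g k l) ∧
    3 ≤ (Finset.univ.filter (fun p : Fin 5 × Fin 5 => p.1 < p.2 ∧ ¬ Con G v a g p.1 p.2)).card := by
  have h := patp (Con G v a g 0 1) (Con G v a g 0 2) (Con G v a g 0 3) (Con G v a g 0 4) (Con G v a g 1 2) (Con G v a g 1 3) (Con G v a g 1 4) (Con G v a g 2 3) (Con G v a g 2 4) (Con G v a g 3 4)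
    (no_K4' G v a ha hW.1 g hinj 0 1 2 3 (by decide))
    (no_K4' G v a ha hW.1 g hinj 0 1 2 4 (by decide))
    (no_K4' G v a ha hW.1 g hinj 0 1 3 4 (by decide))
    (no_K4' G v a ha hW.1 g hinj 0 2 3 4 (by decide))
    (no_K4' G v a ha hW.1 g hinj 1 2 3 4 (by decide))
    (fun ⟨c0, c1, c2, c3, c4, c5⟩ => no_K23' G v a ha hW.2 g hinj 0 1 2 3 4 (by decide)
      ⟨c0, c1, c2, c3, c4, c5⟩)
    (fun ⟨c0, c1, c2, c3, c4, c5⟩ => no_K23' G v a ha hW.2 g hinj 0 2 1 3 4 (by decide)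
      ⟨c0, c1, c2, Con.symm G v a c3, c4, c5⟩)
    (fun ⟨c0, c1, c2, c3, c4, c5⟩ => no_K23' G v a ha hW.2 g hinj 0 3 1 2 4 (by decide)
      ⟨c0, c1, c2, Con.symm G v a c3, Con.symm G v a c4, c5⟩)
    (fun ⟨c0, c1, c2, c3, c4, c5⟩ => no_K23' G v a ha hW.2 g hinj 0 4 1 2 3 (by decide)
      ⟨c0, c1, c2, Con.symm G v a c3, Con.symm G v a c4, Con.symm G v a c5⟩)
    (fun ⟨c0, c1, c2, c3, c4, c5⟩ => no_K23' G v a ha hW.2 g hinj 1 2 0 3 4 (by decide)
      ⟨Con.symm G v a c0, c1, c2, Con.symm G v a c3, c4, c5⟩)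
    (fun ⟨c0, c1, c2, c3, c4, c5⟩ => no_K23' G v a ha hW.2 g hinj 1 3 0 2 4 (by decide)
      ⟨Con.symm G v a c0, c1, c2, Con.symm G v a c3, Con.symm G v a c4, c5⟩)
    (fun ⟨c0, c1, c2, c3, c4, c5⟩ => no_K23' G v a ha hW.2 g hinj 1 4 0 2 3 (by decide)
      ⟨Con.symm G v a c0, c1, c2, Con.symm G v a c3, Con.symm G v a c4, Con.symm G v a c5⟩)
    (fun ⟨c0, c1, c2, c3, c4, c5⟩ => no_K23' G v a ha hW.2 g hinj 2 3 0 1 4 (by decide)
      ⟨Con.symm G v a c0, Con.symm G v a c1, c2, Con.symm G v a c3, Con.symm G v a c4, c5⟩)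
    (fun ⟨c0, c1, c2, c3, c4, c5⟩ => no_K23' G v a ha hW.2 g hinj 2 4 0 1 3 (by decide)
      ⟨Con.symm G v a c0, Con.symm G v a c1, c2, Con.symm G v a c3, Con.symm G v a c4, Con.symm G v a c5⟩)
    (fun ⟨c0, c1, c2, c3, c4, c5⟩ => no_K23' G v a ha hW.2 g hinj 3 4 0 1 2 (by decide)
      ⟨Con.symm G v a c0, Con.symm G v a c1, Con.symm G v a c2, Con.symm G v a c3, Con.symm G v a c4, Con.symm G v a c5⟩)
  obtain ⟨h1, h2⟩ := h
  constructor
  · rcases h1 with ⟨h, h'⟩ | ⟨h, h'⟩ | ⟨h, h'⟩ | ⟨h, h'⟩ | ⟨h, h'⟩ | ⟨h, h'⟩ | ⟨h, h'⟩ | ⟨h, h'⟩ | ⟨h, h'⟩ | ⟨h, h'⟩ | ⟨h, h'⟩ | ⟨h, h'⟩ | ⟨h, h'⟩ | ⟨h, h'⟩ | ⟨h, h'⟩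
    · exact ⟨0, 1, 2, 3, by decide, by decide, by decide, by decide, by decide, h, h'⟩
    · exact ⟨0, 1, 2, 4, by decide, by decide, by decide, by decide, by decide, h, h'⟩
    · exact ⟨0, 1, 3, 4, by decide, by decide, by decide, by decide, by decide, h, h'⟩
    · exact ⟨0, 2, 1, 3, by decide, by decide, by decide, by decide, by decide, h, h'⟩
    · exact ⟨0, 2, 1, 4, by decide, by decide, by decide, by decide, by decide, h, h'⟩
    · exact ⟨0, 2, 3, 4, by decide, by decide, by decide, by decide, by decide, h, h'⟩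
    · exact ⟨0, 3, 1, 2, by decide, by decide, by decide, by decide, by decide, h, h'⟩
    · exact ⟨0, 3, 1, 4, by decide, by decide, by decide, by decide, by decide, h, h'⟩
    · exact ⟨0, 3, 2, 4, by decide, by decide, by decide, by decide, by decide, h, h'⟩
    · exact ⟨0, 4, 1, 2, by decide, by decide, by decide, by decide, by decide, h, h'⟩
    · exact ⟨0, 4, 1, 3, by decide, by decide, by decide, by decide, by decide, h, h'⟩
    · exact ⟨0, 4, 2, 3, by decide, by decide, by decide, by decide, by decide, h, h'⟩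
    · exact ⟨1, 2, 3, 4, by decide, by decide, by decide, by decide, by decide, h, h'⟩
    · exact ⟨1, 3, 2, 4, by decide, by decide, by decide, by decide, by decide, h, h'⟩
    · exact ⟨1, 4, 2, 3, by decide, by decide, by decide, by decide, by decide, h, h'⟩
  · refine h2.trans (le_of_eq ?_)
    rw [Finset.card_filter, Fintype.sum_prod_type]
    simp only [Fin.sum_univ_five]
    have e : ∀ i j : Fin 5, ¬ i < j → (if i < j ∧ ¬ Con G v a g i j then 1 else 0) = 0 := by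
      intro i j hij
      rw [if_neg (fun h => hij h.1)]
    have e' : ∀ i j : Fin 5, i < j → (if i < j ∧ ¬ Con G v a g i j then 1 else 0) =
        if Con G v a g i j then 0 else 1 := by
      intro i j hij
      by_cases h : Con G v a g i j
      · rw [if_neg (fun h' => h'.2 h), if_pos h]
      · rw [if_pos ⟨hij, h⟩, if_neg h]
    rw [e 0 0 (by decide)]
    rw [e' 0 1 (by decide)]
    rw [e' 0 2 (by decide)]
    rw [e' 0 3 (by decide)]
    rw [e' 0 4 (by decide)]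
    rw [e 1 0 (by decide)]
    rw [e 1 1 (by decide)]
    rw [e' 1 2 (by decide)]
    rw [e' 1 3 (by decide)]
    rw [e' 1 4 (by decide)]
    rw [e 2 0 (by decide)]
    rw [e 2 1 (by decide)]
    rw [e 2 2 (by decide)]
    rw [e' 2 3 (by decide)]
    rw [e' 2 4 (by decide)]
    rw [e 3 0 (by decide)]
    rw [e 3 1 (by decide)]
    rw [e 3 2 (by decide)]
    rw [e 3 3 (by decide)]
    rw [e' 3 4 (by decide)]
    rw [e 4 0 (by decide)]
    rw [e 4 1 (by decide)]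
    rw [e 4 2 (by decide)]
    rw [e 4 3 (by decide)]
    rw [e 4 4 (by decide)]
    simp only [add_zero, zero_add]
    omega

end

end Pool.Agent.R814.BL
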