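import Pool.Agent.Y865.RF.PL

/-!
Weak `K₃,₃`: planar graphs do not have it; the class of graphs without weak `K₅` and without weak
`K₃,₃` is closed under minors.
-/

set_option autoImplicit false

namespace Pool.Agent.R814.BL

open Polynomial Pool.Agent.H207R2.BL Pool.Agent.Y865.RF

/-- Weak `K₃,₃`: three vertices and three vertices, joined by nine walks, walks belonging to disjoint
pairs being vertex-disjoint. -/
def WB (V : Type) (G : SimpleGraph V) : Prop :=
  ∃ (x y : Fin 3 → V) (A : Fin 3 → Fin 3 → Set V),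
    (∀ a b, Cn G (A a b) (x a) (y b)) ∧
    (∀ a b c d, a ≠ c → b ≠ d → Disjoint (A a b) (A c d))

/-- the class of graphs with neither -/
def Cl (V : Type) (G : SimpleGraph V) : Prop := ¬ WK V G ∧ ¬ WB V G

theorem pl33 (V : Type) (G : SimpleGraph V) (f : V → ℝ × ℝ) (γ : V → V → ℝ → ℝ × ℝ)
    (h : IsDrawing G f γ) : ¬ WB V G := by
  intro hK
  obtain ⟨x, y, A, hA, hd⟩ := hK
  let c : ℝ × ℝ → ℂ := fun z => ⟨z.1, z.2⟩
  have hcc : Continuous c := Complex.equivRealProdCLM.symm.continuous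
  have hci : Function.Injective c := by
    intro a b hab
    have h1 := congrArg Complex.re hab
    have h2 := congrArg Complex.im hab
    exact Prod.ext h1 h2
  let e : Fin 6 → Fin 3 := fun i => ⟨i.1 % 3, Nat.mod_lt _ (by norm_num)⟩
  have he1 : ∀ a c : Fin 6, a.1 < 3 → c.1 < 3 → a ≠ c → e a ≠ e c := by decide
  have he2 : ∀ a c : Fin 6, 3 ≤ a.1 → 3 ≤ c.1 → a ≠ c → e a ≠ e c := by decide
  refine Pool.Agent.Helper479.Bond.VK.k33_joined
    (fun i => if i.1 < 3 then c (f (x (e i))) else c (f (y (e i))))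
    (fun a b => c '' Dr G f γ (A (e a) (e b))) ?_ ?_
  · intro a b ha hb
    have hb' : ¬ b.1 < 3 := by omega
    simp only [if_pos ha, if_neg hb']
    obtain ⟨w, hw⟩ := hA (e a) (e b)
    have hj := Dr_joined h (A (e a) (e b)) w hw
    refine ⟨hj.somePath.map hcc, ?_⟩
    intro t
    exact ⟨_, hj.somePath_mem t, rfl⟩
  · intro a b c' d ha hb hc hd' h1 h2
    rw [Set.disjoint_left]
    rintro z ⟨y, hy, rfl⟩ ⟨y', hy', hyy⟩
    have := hci hyy
    subst this
    exact Dr_disjoint h (A (e a) (e b)) (A (e c') (e d))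
      (fun v hv hv' => Set.disjoint_left.1 (hd _ _ _ _ (he1 a c' ha hc h1) (he2 b d hb hd' h2))
        hv hv') _ hy hy'

theorem wb_of_map {V W : Type} {G : SimpleGraph V} {H : SimpleGraph W} (ψ : W → V)
    (φ : V → W) (hψ : ∀ x, ψ (φ x) = x)
    (h : ∀ x y, G.Adj x y → Cn H (ψ ⁻¹' {x, y}) (φ x) (φ y)) (hG : WB V G) : WB W H := by
  obtain ⟨x, y, A, hA, hd⟩ := hG
  refine ⟨fun i => φ (x i), fun i => φ (y i), fun a b => ψ ⁻¹' (A a b), ?_, ?_⟩
  · intro a b
    refine (hA a b).transport φ ?_ ?_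
    · intro y z hy hz hyz
      refine (h y z hyz).mono ?_
      intro w hw
      rcases hw with hw | hw
      · change ψ w ∈ A a b
        rw [hw]
        exact hy
      · change ψ w ∈ A a b
        rw [Set.mem_singleton_iff.1 hw]
        exact hz
    · intro y hy
      change ψ (φ y) ∈ A a b
      rw [hψ]
      exact hy
  · intro a b c d h1 h2
    exact (hd a b c d h1 h2).preimage ψ

theorem wb_le {V : Type} {G H : SimpleGraph V} (h : H ≤ G) (hH : WB V H) : WB V G :=
  wb_of_map id id (fun _ => rfl) (fun x y hxy => Cn.adj (h hxy) (by simp) (by simp)) hH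

theorem wb_vertex {V : Type} (G : SimpleGraph V) (v : V)
    (h : WB {x : V // x ≠ v} (G.comap Subtype.val)) : WB V G := by
  obtain ⟨x, y, A, hA, hd⟩ := h
  refine ⟨fun i => (x i).1, fun i => (y i).1, fun a b => Subtype.val '' (A a b), ?_, ?_⟩
  · intro a b
    refine (hA a b).transport Subtype.val ?_ ?_
    · intro y z hy hz hyz
      exact Cn.adj hyz ⟨y, hy, rfl⟩ ⟨z, hz, rfl⟩
    · intro y hy
      exact ⟨y, hy, rfl⟩
  · intro a b c d h1 h2
    rw [Set.disjoint_left]
    rintro z ⟨y, hy, rfl⟩ ⟨y', hy', hyy⟩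
    have := Subtype.ext hyy
    subst this
    exact Set.disjoint_left.1 (hd a b c d h1 h2) hy hy'

theorem wb_contr {V : Type} (G : SimpleGraph V) (u v : V) (huv : G.Adj u v)
    (h : WB {x : V // x ≠ v} (contract G u v)) : WB V G := by
  classical
  let ψ : V → {x : V // x ≠ v} := fun y => if hy : y = v then ⟨u, huv.ne⟩ else ⟨y, hy⟩
  have hψv : ψ v = ⟨u, huv.ne⟩ := by simp [ψ]
  have hψ : ∀ x : {x : V // x ≠ v}, ψ x.1 = x := by
    intro x
    simp [ψ, x.2]
  refine wb_of_map ψ Subtype.val hψ ?_ h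
  rintro x y ⟨hne, hxy⟩
  have hx : x.1 ∈ ψ ⁻¹' {x, y} := by
    rw [Set.mem_preimage, hψ]
    simp
  have hy : y.1 ∈ ψ ⁻¹' {x, y} := by
    rw [Set.mem_preimage, hψ]
    simp
  rcases hxy with hxy | ⟨hxu, hvy⟩ | ⟨hyu, hvx⟩
  · exact Cn.adj hxy hx hy
  · have hv : v ∈ ψ ⁻¹' {x, y} := by
      rw [Set.mem_preimage, hψv]
      left
      exact Subtype.ext hxu.symm
    refine (Cn.adj ?_ hx hv).trans (Cn.adj hvy hv hy)
    rw [hxu]
    exact huv
  · have hv : v ∈ ψ ⁻¹' {x, y} := by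
      rw [Set.mem_preimage, hψv]
      right
      exact Subtype.ext hyu.symm
    refine (Cn.adj hvx.symm hx hv).trans (Cn.adj ?_ hv hy)
    rw [hyu]
    exact huv.symm

theorem cl_mc : MinorClosed Cl where
  edge := fun V G H h hG => ⟨fun hH => hG.1 (wk_le h hH), fun hH => hG.2 (wb_le h hH)⟩
  vertex := fun V G v hG => ⟨fun h => hG.1 (wk_vertex G v h), fun h => hG.2 (wb_vertex G v h)⟩
  contr := fun V G u v huv hG =>
    ⟨fun h => hG.1 (wk_contr G u v huv h), fun h => hG.2 (wb_contr G u v huv h)⟩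

end Pool.Agent.R814.BL
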